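import Pool.Agent.Lib.MP_565fc2_lc.SC.Fin

/-!
# SN-Defs: classes of hyperbolic groups given by their finite radicals (MP_565fc2_lc, unconditional results)
-/

set_option autoImplicit false

namespace Pool.SC

open Function

noncomputable section

/-! ### for the statements -/

/-- `N` is the largest finite normal subgroup -/
def IsRad {G : Type} [Group G] (N : Subgroup G) : Prop :=
  N.Normal ∧ Finite N ∧ ∀ N' : Subgroup G, N'.Normal → Finite N' → N' ≤ N

/-- the marked non-elementary hyperbolic groups whose largest finite normal subgroup has the property `P` -/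
def HP (P : (K : Type) → [Group K] → Prop) : Set MGrp := {p | NEH p.grp ∧ ∃ N : Subgroup p.grp, IsRad N ∧ P N}

/-- there is an infinite ascending sequence of finite groups with the property `P`, each of them a proper normal subgroup of the next one -/
def AscChain (P : (K : Type) → [Group K] → Prop) : Prop :=
  ∃ (K : ℕ → Type) (_ : ∀ n, Group (K n)) (f : ∀ n, K n →* K (n + 1)),
    ∀ n, Finite (K n) ∧ P (K n) ∧ Injective (f n) ∧ (f n).range.Normal ∧ ¬ Surjective (f n)

/-- the marked non-elementary hyperbolic groups whose largest finite normal subgroup is isomorphic to `K` -/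
def HK (K : Type) [Group K] : Set MGrp := HP fun L _ => Nonempty (L ≃* K)

/-- the subgroups of `Aut K` which contain all inner automorphisms -/
def InnLe (K : Type) [Group K] : Type := {A : Subgroup (MulAut K) // (MulAut.conj : K →* MulAut K).range ≤ A}

/-- conjugacy in `Aut K` -/
def outSetoid (K : Type) [Group K] : Setoid (InnLe K) where
  r A B := ∃ b : MulAut K, B.1 = A.1.map (MulAut.conj b).toMonoidHom
  iseqv := by
    refine ⟨fun A => ⟨1, ?_⟩, ?_, ?_⟩
    · ext x
      simp
    · rintro A B ⟨b, hb⟩
      refine ⟨b⁻¹, ?_⟩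
      rw [hb, Subgroup.map_map]
      ext x
      simp [mul_assoc]
    · rintro A B C ⟨b, hb⟩ ⟨c, hc⟩
      refine ⟨c * b, ?_⟩
      rw [hc, hb, Subgroup.map_map]
      congr 1

/-- the number of conjugacy classes of subgroups of `Out K` -/
def nOut (K : Type) [Group K] : ℕ := Nat.card (Quotient (outSetoid K))

/-! ### for the proofs -/

/-- small cancellation quotients without new finite normal subgroups -/
def ScGenP : Prop := ∀ (D : Type) [Group D] (E : Subgroup D) [E.Normal] [Finite E], WordHyp D →
  ∀ (κ : Type) [Finite κ] (H : κ → Subgroup D) (h : κ → D), Nonempty κ →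
    (∀ σ, H σ ≤ Subgroup.centralizer (E : Set D)) → (∀ σ, h σ ∈ H σ) → (∀ σ, Lox (h σ)) →
    (∀ σ τ, σ ≠ τ → ¬ Comm (h σ) (h τ)) → (∀ σ x, FinConj (H σ) x → x ∈ E) →
    ∀ (ι : Type) [Finite ι] [Nonempty ι] (cl : ι → κ) (g : ι → D), (∀ i, g i ∈ Subgroup.centralizer (E : Set D)) →
      ∀ M : Set D, M.Finite → (1 : D) ∉ M →
        ∃ u : ι → D, (∀ i, u i ∈ H (cl i)) ∧
          NEH (D ⧸ Subgroup.normalClosure (Set.range fun i => g i * u i)) ∧
          (∀ m ∈ M, m ∉ Subgroup.normalClosure (Set.range fun i => g i * u i)) ∧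
          fcr (D ⧸ Subgroup.normalClosure (Set.range fun i => g i * u i)) ≤
            E.map (QuotientGroup.mk' (Subgroup.normalClosure (Set.range fun i => g i * u i)))

/-- the automorphisms of `K` which are induced by conjugation with elements of `G`, for `i : K →* G` -/
def actI {K G : Type} [Group K] [Group G] (i : K →* G) : Subgroup (MulAut K) where
  carrier := {a | ∃ g : G, ∀ k, g * i k * g⁻¹ = i (a k)}
  one_mem' := ⟨1, fun k => by simp⟩
  mul_mem' := by
    rintro a b ⟨g, hg⟩ ⟨h, hh⟩
    refine ⟨g * h, fun k => ?_⟩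
    have e : g * h * i k * (g * h)⁻¹ = g * (h * i k * h⁻¹) * g⁻¹ := by group
    rw [e, hh, hg]
    rfl
  inv_mem' := by
    rintro a ⟨g, hg⟩
    refine ⟨g⁻¹, fun k => ?_⟩
    have h := hg (a⁻¹ k)
    have e : a (a⁻¹ k) = k := by
      rw [← MulAut.mul_apply, mul_inv_cancel, MulAut.one_apply]
    rw [e] at h
    rw [← h]
    group

theorem mem_actI {K G : Type} [Group K] [Group G] (i : K →* G) (a : MulAut K) :
    a ∈ actI i ↔ ∃ g : G, ∀ k, g * i k * g⁻¹ = i (a k) := Iff.rfl

/-- the marked non-elementary hyperbolic groups with radical `K` and action `A` -/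
def HKA (K : Type) [Group K] (A : Subgroup (MulAut K)) : Set MGrp :=
  {p | NEH p.grp ∧ ∃ i : K →* p.grp, Injective i ∧ i.range = fcr p.grp ∧ actI i = A}

/-- the marked groups with a normal subgroup `K` and action `A` -/
def VK (K : Type) [Group K] (A : Subgroup (MulAut K)) : Set MGrp :=
  {p | ∃ i : K →* p.grp, Injective i ∧ i.range.Normal ∧ actI i = A}

end

end Pool.SC
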