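import Pool.Agent.Lib.MP_565fc2_lc.SN.Defs

/-!
# SN-U1: shortest representatives have short projections

`d = wd S`, `A : PD G κ ι cl` path data (board SC), `λ = n (r i)`.  `short_proj`: `a = ax i y`.  First `g = 1`: `P = apts a`, `α, β` nearest points (`exists_near`, `ax_ne`) of `1`, `x`
in `P` (`apts_ax`: `α = y x_j`, `β = y x_j'`), `δ = d α β = d x_j x_j'` (`d_left`).  `nc_two` (with `ax_nc`): `oA 1 x ≤ 2 δ + 2 c2`.
If `δ ≤ c2 + D` done (`λ` is large: `hbig`).  Otherwise `nc_long`: `d 1 x ≥ d 1 α + δ + d β x - 2 c2 - D`.  `PD.close_rot i y j j'`: `t = ± 1`, `ρ = y (r i)^t y⁻¹ ∈ N` (`hr`, normal) and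
`d (ρ α) β ≤ max (λ - δ) (δ - λ) + 2 k3`.  `n x ≤ n (ρ⁻¹ x) = d ρ x ≤ d ρ (ρ α) + d (ρ α) β + d β x = d 1 α + ...`.
So `δ ≤ 2 c2 + D + 2 k3 + max (λ - δ) (δ - λ)`: either `2 δ ≤ λ + 2 c2 + D + 2 k3` or `λ ≤ 2 c2 + D + 2 k3`, and the latter contradicts `hbig` (`th = 2 t0 + 6 c2 + 2 D`, `c2 = 4 lM + 2 k3 + 2 D`).
General `g`: `oA (apts a) g (g x) = oA (apts (g⁻¹ a)) 1 x` (`oA_map` with the left translation by `g⁻¹`; `apts (ax i (g⁻¹ y)) = g⁻¹ • apts (ax i y)`, see `apts_ax`).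

`two_far`: `α, β, α'` nearest points of `g, g x, z`.  `oA g (g x) ≤ 2 d α β + 2 c2`, so `d α β > c2 + D`, `nc_long`: `d g α ≤ d g (g x) + 2 c2 + D = n x + 2 c2 + D`; the same for `z`.
`oA g z ≥ 2 d α α' - 2 c2` (`nc_two`).
-/

set_option autoImplicit false

namespace Pool.SC

noncomputable section

variable {G : Type} [Group G] {κ : Type} {ι : Type} {cl : ι → κ} (A : PD G κ ι cl)

private theorem U1_short (hbig : ∀ i, 1000 * A.th + (4 * A.k3 + 2 * A.c2) ≤ 2 * A.n (A.r i))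
    (N : Subgroup G) [N.Normal] (hr : ∀ i, A.r i ∈ N) (x : G) (hx : ∀ m ∈ N, A.n x ≤ A.n (m * x))
    (i : ι) (y : G) :
    oA A.d (A.apts (A.ax i y)) 1 x ≤ A.n (A.r i) + (2 * A.k3 + 4 * A.c2 + A.D) := by
  have hH := A.toHG.hyp4
  have hb := hbig i
  have k1 : A.c2 = 4 * A.lM + 2 * A.k3 + 2 * A.D := rfl
  have k2 : A.th = 2 * A.t0 + 6 * A.c2 + 2 * A.D := rfl
  have k4 := A.m0_lM
  have k5 := A.m0_big
  have k6 := A.hM_pos
  obtain ⟨α, hα⟩ := exists_near A.d (A.ax_ne (A.ax i y)) 1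
  obtain ⟨β, hβ⟩ := exists_near A.d (A.ax_ne (A.ax i y)) x
  have h2 := (nc_two hH (A.ax_nc (A.ax i y)) hα hβ).1
  by_cases hδ : A.d α β ≤ A.c2 + A.D
  · omega
  · have hl := nc_long hH (A.ax_nc (A.ax i y)) hα hβ (by omega)
    have hα1 := hα.1
    have hβ1 := hβ.1
    rw [A.apts_ax] at hα1 hβ1
    obtain ⟨j, hj⟩ := hα1
    obtain ⟨j', hj'⟩ := hβ1
    obtain ⟨t, -, ht⟩ := A.close_rot i y j j'
    rw [← hj, ← hj'] at ht
    have hd : A.d (A.x i j) (A.x i j') = A.d α β := by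
      rw [hj, hj']; exact (A.toHG.d_left y _ _).symm
    rw [hd] at ht
    have hρ : (y * A.r i ^ t * y⁻¹)⁻¹ ∈ N :=
      N.inv_mem (Subgroup.Normal.conj_mem inferInstance _ (N.zpow_mem (hr i) t) y)
    have hm := hx _ hρ
    have e1 : A.n ((y * A.r i ^ t * y⁻¹)⁻¹ * x) = A.d (y * A.r i ^ t * y⁻¹) x := (A.toHG.d_eq _ _).symm
    rw [e1] at hm
    have e2 : A.d (y * A.r i ^ t * y⁻¹) (y * A.r i ^ t * y⁻¹ * α) = A.d 1 α := by
      have := A.toHG.d_left (y * A.r i ^ t * y⁻¹) 1 α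
      rwa [mul_one] at this
    have t1 := hH.tri (y * A.r i ^ t * y⁻¹) (y * A.r i ^ t * y⁻¹ * α) x
    have t2 := hH.tri (y * A.r i ^ t * y⁻¹ * α) β x
    have e3 : A.d 1 x = A.n x := A.toHG.d_one x
    rcases le_total (A.d α β) (A.n (A.r i)) with hc | hc
    · omega
    · omega

theorem PD.short_proj (hbig : ∀ i, 1000 * A.th + (4 * A.k3 + 2 * A.c2) ≤ 2 * A.n (A.r i))
    (N : Subgroup G) [N.Normal] (hr : ∀ i, A.r i ∈ N) (x : G) (hx : ∀ m ∈ N, A.n x ≤ A.n (m * x))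
    (i : ι) (y g : G) :
    oA A.d (A.apts (A.ax i y)) g (g * x) ≤ A.n (A.r i) + (2 * A.k3 + 4 * A.c2 + A.D) := by
  have hmap : (fun z => g * z) '' A.apts (A.ax i (g⁻¹ * y)) = A.apts (A.ax i y) := by
    rw [A.apts_ax, A.apts_ax]
    ext z
    constructor
    · rintro ⟨w, ⟨j, rfl⟩, rfl⟩
      exact ⟨j, by group⟩
    · rintro ⟨j, rfl⟩
      exact ⟨g⁻¹ * y * A.x i j, ⟨j, rfl⟩, by group⟩
  have h1 := oA_map (d := A.d) (A := A.apts (A.ax i (g⁻¹ * y))) (fun z => g * z) (fun u v => A.toHG.d_left g u v) 1 x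
  rw [hmap] at h1
  simp only [mul_one] at h1
  rw [h1]
  exact U1_short A hbig N hr x hx i (g⁻¹ * y)

theorem PD.two_far (a : A.Ax) (x g z : G) (hg : 4 * A.c2 + 2 * A.D < oA A.d (A.apts a) g (g * x))
    (hz : 4 * A.c2 + 2 * A.D < oA A.d (A.apts a) z (z * x)) :
    2 * A.d g z ≤ oA A.d (A.apts a) g z + (4 * A.n x + 10 * A.c2 + 4 * A.D) := by
  have hH := A.toHG.hyp4
  obtain ⟨α, hα⟩ := exists_near A.d (A.ax_ne a) g
  obtain ⟨β, hβ⟩ := exists_near A.d (A.ax_ne a) (g * x)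
  obtain ⟨α', hα'⟩ := exists_near A.d (A.ax_ne a) z
  obtain ⟨β', hβ'⟩ := exists_near A.d (A.ax_ne a) (z * x)
  have h1 := (nc_two hH (A.ax_nc a) hα hβ).1
  have h2 := (nc_two hH (A.ax_nc a) hα' hβ').1
  have h3 := nc_long hH (A.ax_nc a) hα hβ (by omega)
  have h4 := nc_long hH (A.ax_nc a) hα' hβ' (by omega)
  have h5 := (nc_two hH (A.ax_nc a) hα hα').2
  have e1 : A.d g (g * x) = A.n x := A.toHG.d_mul g x
  have e2 : A.d z (z * x) = A.n x := A.toHG.d_mul z x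
  have t1 := hH.tri g α z
  have t2 := hH.tri α α' z
  have s1 := hH.symm α' z
  omega

end

end Pool.SC
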