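import Pool.Agent.Lib.MP_565fc2_lc.SN.U1

/-!
# SN-U2: an element which commutes modulo `N` with all powers commutes with a power

`comm_lift`.  Suppose `c⁻¹ x c ∉ Ep h` (`h = A.h s`), so `u_j := c h^(k j) c⁻¹` does not commute with `x` for all `j ≥ 1`, so `w_j = x⁻¹ u_j x u_j⁻¹ ≠ 1`, `w_j ∈ N`.
Take `j ≥ 1` with `2 n (u_j) > 4 m0 + t0 + 4 n x + 10 c2 + 4 D` (`n (h^(k j)) ≥ k j`, `nrm_diff`; `n (c g c⁻¹) ≥ n g - 2 n c`).  `hN` gives `i, y` with `2 λ ≤ oA P 1 w_j + 44 th + 4 k3 + 2 c2`,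
`P = apts (ax i y)`, `λ = n (r i)`.  Triangle inequality (`oA_tri`) along
`1, x⁻¹, x⁻¹ c, x⁻¹ c h^(kj), x⁻¹ u_j, x⁻¹ u_j x, x⁻¹ u_j x c, x⁻¹ u_j x c h^(-kj), w_j`:
`oA 1 x⁻¹` (= `oA (x⁻¹) (x⁻¹ x)`, symmetric; `short_proj` with `g = x⁻¹`), `≤ 2 n c` (`oA_le_two`), `≤ t0` (`line_ax`, as `z0` in SC-Q4), `≤ 2 n c`, `oA (x⁻¹ u_j) (x⁻¹ u_j x)` (`short_proj`), `≤ 2 n c`,
`≤ t0`, `≤ 2 n c`.  `two_far` with `g = x⁻¹`, `z = x⁻¹ u_j`: `d g z = n u_j`, `oA g z ≤ 4 n c + t0`: not both `oA g (g x)`, `oA z (z x)` are `> 4 c2 + 2 D`.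
So `2 λ ≤ λ + (2 k3 + 4 c2 + D) + (4 c2 + 2 D) + 2 t0 + 8 m0 + 44 th + 4 k3 + 2 c2`, against `hbig`.
-/

set_option autoImplicit false

namespace Pool.SC

noncomputable section

variable {G : Type} [Group G] {κ : Type} {ι : Type} {cl : ι → κ} (A : PD G κ ι cl)

theorem PD.comm_lift (hbig : ∀ i, 1000 * A.th + (4 * A.k3 + 2 * A.c2) ≤ 2 * A.n (A.r i))
    (N : Subgroup G) [N.Normal] (hr : ∀ i, A.r i ∈ N)
    (hN : ∀ n ∈ N, n ≠ 1 → ∃ i y, 2 * A.n (A.r i) ≤ oA A.d (A.apts (A.ax i y)) 1 n + (44 * A.th + 4 * A.k3 + 2 * A.c2))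
    (s : κ) (c : G) (hc : A.n c ≤ A.m0) (x : G) (hx : ∀ m ∈ N, A.n x ≤ A.n (m * x)) (k : ℕ) (hk : 0 < k)
    (hcomm : ∀ j : ℕ, x⁻¹ * (c * A.h s ^ (k * j) * c⁻¹) * x * (c * A.h s ^ (k * j) * c⁻¹)⁻¹ ∈ N) :
    c⁻¹ * x * c ∈ Ep (A.h s) := by
  have hH := A.toHG.hyp4
  have k1 : A.c2 = 4 * A.lM + 2 * A.k3 + 2 * A.D := rfl
  have k2 : A.th = 2 * A.t0 + 6 * A.c2 + 2 * A.D := rfl
  have k4 := A.m0_lM
  have k5 := A.m0_big
  have k6 := A.hM_pos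
  by_contra hne
  -- the exponent
  set J : ℕ := 4 * A.m0 + A.t0 + 2 * A.n x + 5 * A.c2 + 2 * A.D + 1 with hJ
  have hkJ : J ≤ k * J := Nat.le_mul_of_pos_left J hk
  set e : ℕ := k * J with he
  have hepos : 0 < e := by omega
  set h := A.h s with hh
  have hnrm : Nrm A.toHG h := A.nrm s
  set u : G := c * h ^ e * c⁻¹ with hu
  have hw : x⁻¹ * u * x * u⁻¹ ∈ N := hcomm J
  have hw1 : x⁻¹ * u * x * u⁻¹ ≠ 1 := by
    intro h1
    apply hne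
    rw [mem_Ep]
    refine ⟨e, hepos, ?_⟩
    have h2 : u * x = x * u := by
      have h3 : x * (x⁻¹ * u * x * u⁻¹) * u = x * 1 * u := by rw [h1]
      rw [mul_one] at h3
      rw [← h3]
      group
    have h4 : c⁻¹ * (u * x) * c = c⁻¹ * (x * u) * c := by rw [h2]
    have h5 : c⁻¹ * (u * x) * c = h ^ e * (c⁻¹ * x * c) := by rw [hu]; group
    have h6 : c⁻¹ * (x * u) * c = c⁻¹ * x * c * h ^ e := by rw [hu]; group
    rw [← h6, ← h4, h5]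
  obtain ⟨i, y, hi⟩ := hN _ hw hw1
  have hb := hbig i
  have hne' := A.ax_ne (A.ax i y)
  -- the line
  have z0 : ∀ (g : G) (t : ℤ), oA A.d (A.apts (A.ax i y)) g (g * h ^ t) ≤ A.t0 := by
    intro g t
    refine A.line_ax (A.ax i y) (A.ln s g) g (g * h ^ t) ?_ ?_
    · rw [LD.pts_ln]
      exact self_mem_line _ _
    · rw [LD.pts_ln]
      exact mem_line_zpow (self_mem_line _ _) t
  have zc : ∀ g : G, oA A.d (A.apts (A.ax i y)) g (g * c) ≤ 2 * A.m0 := by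
    intro g
    have h1 := oA_le_two hH hne' g (g * c)
    rw [A.toHG.d_mul] at h1
    omega
  have zc' : ∀ g : G, oA A.d (A.apts (A.ax i y)) g (g * c⁻¹) ≤ 2 * A.m0 := by
    intro g
    have h1 := zc (g * c⁻¹)
    rw [inv_mul_cancel_right, oA_symm] at h1
    exact h1
  have zu : ∀ (g : G) (t : ℤ), oA A.d (A.apts (A.ax i y)) g (g * (c * h ^ t * c⁻¹)) ≤ 4 * A.m0 + A.t0 := by
    intro g t
    have h1 := zc g
    have h2 := z0 (g * c) t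
    have h3 := zc' (g * c * h ^ t)
    have h4 := oA_tri hH hne' g (g * c) (g * c * h ^ t)
    have h5 := oA_tri hH hne' g (g * c * h ^ t) (g * c * h ^ t * c⁻¹)
    have h6 : g * (c * h ^ t * c⁻¹) = g * c * h ^ t * c⁻¹ := by group
    rw [h6]
    omega
  have zu1 : ∀ g : G, oA A.d (A.apts (A.ax i y)) g (g * u) ≤ 4 * A.m0 + A.t0 := by
    intro g
    have h1 := zu g (e : ℤ)
    rwa [zpow_natCast] at h1
  have zu2 : ∀ g : G, oA A.d (A.apts (A.ax i y)) g (g * u⁻¹) ≤ 4 * A.m0 + A.t0 := by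
    intro g
    have h1 := zu1 (g * u⁻¹)
    rw [inv_mul_cancel_right, oA_symm] at h1
    exact h1
  -- the two projections of x
  have s1 := A.short_proj hbig N hr x hx i y x⁻¹
  have s2 := A.short_proj hbig N hr x hx i y (x⁻¹ * u)
  have far : ¬ (4 * A.c2 + 2 * A.D < oA A.d (A.apts (A.ax i y)) x⁻¹ (x⁻¹ * x) ∧
      4 * A.c2 + 2 * A.D < oA A.d (A.apts (A.ax i y)) (x⁻¹ * u) (x⁻¹ * u * x)) := by
    rintro ⟨f1, f2⟩
    have h1 := A.two_far (A.ax i y) x x⁻¹ (x⁻¹ * u) f1 f2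
    rw [A.toHG.d_mul] at h1
    have h2 := zu1 x⁻¹
    have h3 := nrm_diff hnrm 0 e (Nat.zero_le e)
    have h4 : A.n (h ^ e) ≤ A.n u + 2 * A.n c := by
      have e1 : A.d 1 (h ^ e) = A.n (h ^ e) := A.toHG.d_one _
      have e2 : A.d c (c * h ^ e) = A.n (h ^ e) := A.toHG.d_mul _ _
      have e3 : A.d 1 c = A.n c := A.toHG.d_one _
      have e4 : A.d u (u * c) = A.n c := A.toHG.d_mul _ _
      have e5 : u * c = c * h ^ e := by rw [hu]; group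
      have e6 : A.d 1 u = A.n u := A.toHG.d_one _
      have t1 := hH.tri c 1 (c * h ^ e)
      have t2 := hH.tri 1 u (c * h ^ e)
      have t3 := hH.symm c 1
      rw [e5] at e4
      omega
    omega
  have t1 := oA_tri hH hne' 1 x⁻¹ (x⁻¹ * u)
  have t2 := oA_tri hH hne' 1 (x⁻¹ * u) (x⁻¹ * u * x)
  have t3 := oA_tri hH hne' 1 (x⁻¹ * u * x) (x⁻¹ * u * x * u⁻¹)
  have u1 := zu1 x⁻¹
  have u2 := zu2 (x⁻¹ * u * x)
  have e7 : oA A.d (A.apts (A.ax i y)) 1 x⁻¹ = oA A.d (A.apts (A.ax i y)) x⁻¹ (x⁻¹ * x) := by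
    rw [inv_mul_cancel, oA_symm]
  rw [e7] at t1
  rcases not_and_or.1 far with f | f
  · omega
  · omega

end

end Pool.SC
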