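import Pool.Agent.Lib.MP_565fc2_lc.SN.U2

/-!
# SN-U3: the quotient has trivial radical

`quot_fcr`.  Suppose `fcr (G ⧸ N) ≠ ⊥`.  Let `x` have minimal `A.n x` among the `x : G` with `x ∉ N`, `mk x ∈ fcr (G ⧸ N)` (`Nat.find` / well-foundedness).  For `m ∈ N`: `m x ∉ N` and
`mk (m x) = mk x`, so `n x ≤ n (m x)`.  For every `c` the element `v = mk (c h c⁻¹)` acts on the finite set `fcr (G ⧸ N)` by conjugation; some power `v ^ k`, `k > 0`, acts trivially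
(e.g. `fcr (G ⧸ N) ≤ FC`, finite conjugation action, `centralizer_finiteIndex (fcr (G ⧸ N))` and `Subgroup.exists_pow_mem_of_index_ne_zero`), hence all `v ^ (k j)`.  So `comm_lift` applies:
`c⁻¹ x c ∈ Ep h` for `c = 1` and all `c ∈ T`; by `hTt` `x = 1 ∈ N`, contradiction.
-/

set_option autoImplicit false

namespace Pool.SC

noncomputable section

variable {G : Type} [Group G] {κ : Type} {ι : Type} {cl : ι → κ} (A : PD G κ ι cl)

theorem PD.quot_fcr (hbig : ∀ i, 1000 * A.th + (4 * A.k3 + 2 * A.c2) ≤ 2 * A.n (A.r i))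
    (N : Subgroup G) [N.Normal] (hr : ∀ i, A.r i ∈ N)
    (hN : ∀ n ∈ N, n ≠ 1 → ∃ i y, 2 * A.n (A.r i) ≤ oA A.d (A.apts (A.ax i y)) 1 n + (44 * A.th + 4 * A.k3 + 2 * A.c2))
    (hf : Finite (fcr (G ⧸ N))) (s : κ) (T : List G) (hT : ∀ c ∈ T, A.n c ≤ A.m0)
    (hTt : ∀ t, t ∈ Ep (A.h s) → (∀ c ∈ T, c⁻¹ * t * c ∈ Ep (A.h s)) → t = 1) :
    fcr (G ⧸ N) = ⊥ := by
  classical
  by_contra hne
  obtain ⟨q, hq, hq1⟩ : ∃ q ∈ fcr (G ⧸ N), q ≠ 1 := by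
    by_contra hcon
    apply hne
    rw [Subgroup.eq_bot_iff_forall]
    intro q hq
    by_contra h1
    exact hcon ⟨q, hq, h1⟩
  obtain ⟨g0, rfl⟩ := QuotientGroup.mk_surjective q
  have hex : ∃ n : ℕ, ∃ g : G, (g ∉ N ∧ (g : G ⧸ N) ∈ fcr (G ⧸ N)) ∧ A.n g = n :=
    ⟨A.n g0, g0, ⟨fun h => hq1 ((QuotientGroup.eq_one_iff g0).2 h), hq⟩, rfl⟩
  obtain ⟨x, ⟨hxN, hxf⟩, hxn⟩ := Nat.find_spec hex
  have hmin : ∀ g : G, g ∉ N → (g : G ⧸ N) ∈ fcr (G ⧸ N) → A.n x ≤ A.n g := by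
    intro g h1 h2
    rw [hxn]
    exact Nat.find_min' hex ⟨g, ⟨h1, h2⟩, rfl⟩
  have hx : ∀ m ∈ N, A.n x ≤ A.n (m * x) := by
    intro m hm
    refine hmin _ (fun h => hxN ?_) ?_
    · have := N.mul_mem (N.inv_mem hm) h
      rwa [inv_mul_cancel_left] at this
    · have e : ((m * x : G) : G ⧸ N) = (x : G ⧸ N) := by
        rw [QuotientGroup.mk_mul, (QuotientGroup.eq_one_iff m).2 hm, one_mul]
      rw [e]
      exact hxf
  have key : ∀ c : G, A.n c ≤ A.m0 → c⁻¹ * x * c ∈ Ep (A.h s) := by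
    intro c hc
    have : Finite (fcr (G ⧸ N)) := hf
    have hfi : (Subgroup.centralizer (fcr (G ⧸ N) : Set (G ⧸ N))).FiniteIndex :=
      centralizer_finiteIndex (fcr (G ⧸ N))
    obtain ⟨k, hk, -, hkm⟩ := Subgroup.exists_pow_mem_of_index_ne_zero hfi.index_ne_zero
      ((c * A.h s * c⁻¹ : G) : G ⧸ N)
    refine A.comm_lift hbig N hr hN s c hc x hx k hk ?_
    intro j
    rw [← QuotientGroup.eq_one_iff]
    have e1 : ((c * A.h s ^ (k * j) * c⁻¹ : G) : G ⧸ N) = (((c * A.h s * c⁻¹ : G) : G ⧸ N) ^ k) ^ j := by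
      rw [← pow_mul, ← QuotientGroup.mk_pow, conj_pow]
    have h2 : (((c * A.h s * c⁻¹ : G) : G ⧸ N) ^ k) ^ j ∈
        Subgroup.centralizer (fcr (G ⧸ N) : Set (G ⧸ N)) := Subgroup.pow_mem _ hkm j
    rw [Subgroup.mem_centralizer_iff] at h2
    have h3 := h2 (x : G ⧸ N) hxf
    rw [QuotientGroup.mk_mul, QuotientGroup.mk_mul, QuotientGroup.mk_mul, QuotientGroup.mk_inv,
      QuotientGroup.mk_inv, e1, mul_assoc (x : G ⧸ N)⁻¹, ← h3]
    group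
  have h1 := key 1 (by rw [HG.n_one]; exact Nat.zero_le _)
  rw [inv_one, one_mul, mul_one] at h1
  have h2 := hTt x h1 (fun c hc => key c (hT c hc))
  exact hxN (h2 ▸ N.one_mem)

end

end Pool.SC
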