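import Pool.Agent.Lib.MP_565fc2_lc.SN.V1

/-!
# SN-V2: common quotients of two groups with the same radical and the same action

`actI_comp`: conjugation with `g x` on `g (i k)`; surjective: every element of `L` is `g x`.
`commonQ`: `amalgSCP` with `H₁ = centralizer (fcr X)`, `H₂ = centralizer (fcr Y)` (`centralizer_finiteIndex`), `E = K`.  `S`, `S'` finite generating sets of `X`, `Y` (`WordHyp.fg_A`).
For `x ∈ X` there is `a ∈ actI i₁ = actI i₂` with `x i₁(k) x⁻¹ = i₁ (a k)` (as `i₁.range = fcr X` is normal), so `y_x ∈ Y` with `y_x i₂(k) y_x⁻¹ = i₂ (a k)`; symmetrically `x_y`.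
Relators (index set `(insert 1 S) ⊕ (insert 1 S')`): `(j₁ x)⁻¹ * j₂ y_x` with class `false` (`u ∈ j₂ H₂`), `(j₂ y)⁻¹ * j₁ x_y` with class `true`; both commute with `j₁ i₁ K`.
In the quotient `L = D ⧸ N` `j₁ x = j₂ (y_x) u` is in the image of `Y`, so `Y → L` is onto, and `X → L` too.  `M` = images of `M₁`, `M₂` and of `i₁ k`, `k ≠ 1`.
`fcr L ≤` image of `K` (last conclusion of `amalgSCP`), and `≥` because the image of `K` is a finite normal subgroup (`le_fcr`).  (See `common_quotient` in SC/A06Common.lean.)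
-/

set_option autoImplicit false

namespace Pool.SC

open Subgroup Function

theorem actI_comp {K X L : Type} [Group K] [Group X] [Group L] (i : K →* X) (g : X →* L) (hg : Surjective g)
    (hn : i.range.Normal) (hi : Injective (g.comp i)) : actI (g.comp i) = actI i := by
  ext a
  rw [mem_actI, mem_actI]
  constructor
  · rintro ⟨y, hy⟩
    obtain ⟨x, rfl⟩ := hg y
    refine ⟨x, fun k => ?_⟩
    have h1 : x * i k * x⁻¹ ∈ i.range := hn.conj_mem _ ⟨k, rfl⟩ x
    obtain ⟨k', hk'⟩ := h1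
    have h2 := hy k
    rw [MonoidHom.comp_apply, ← map_mul, ← map_inv, ← map_mul, ← hk'] at h2
    have h3 : k' = a k := hi h2
    rw [← hk', h3]
  · rintro ⟨x, hx⟩
    refine ⟨g x, fun k => ?_⟩
    rw [MonoidHom.comp_apply, ← map_mul, ← map_inv, ← map_mul, hx]
    rfl

theorem V2_partner {K X Y : Type} [Group K] [Group X] [Group Y] (i₁ : K →* X) (i₂ : K →* Y)
    (hi₁ : Injective i₁) (hn : i₁.range.Normal) (hact : actI i₁ ≤ actI i₂) (x : X) :
    ∃ y : Y, ∀ k, ∃ k', x * i₁ k * x⁻¹ = i₁ k' ∧ y * i₂ k * y⁻¹ = i₂ k' := by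
  let e : K ≃* i₁.range := MonoidHom.ofInjective hi₁
  let a : MulAut K := (e.trans (MulAut.conjNormal x : i₁.range ≃* i₁.range)).trans e.symm
  have ha : ∀ k, x * i₁ k * x⁻¹ = i₁ (a k) := by
    intro k
    have h1 : e (a k) = MulAut.conjNormal x (e k) := by
      change e (e.symm (MulAut.conjNormal x (e k))) = _
      rw [MulEquiv.apply_symm_apply]
    have h2 := congrArg (fun t : i₁.range => (t : X)) h1
    simp only [MulAut.conjNormal_apply] at h2
    exact h2.symm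
  obtain ⟨y, hy⟩ := hact (show a ∈ actI i₁ from ⟨x, ha⟩)
  exact ⟨y, fun k => ⟨a k, ha k, hy k⟩⟩

theorem commonQ (hAm : Amalg) (hFP : FreeProdHyp) (hFL : FreeProdLox) (hFC : FreeProdFC)
    (hSC : ScGenP) (hB2 : B2) (hB3 : B3) (hB4 : B4)
    {K X Y : Type} [Group K] [Finite K] [Group X] [Group Y] (hX : NEH X) (hY : NEH Y) (i₁ : K →* X) (i₂ : K →* Y)
    (hi₁ : Injective i₁) (hi₂ : Injective i₂) (hr₁ : i₁.range = fcr X) (hr₂ : i₂.range = fcr Y) (hact : actI i₁ = actI i₂)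
    (M₁ : Set X) (M₂ : Set Y) (hM₁ : M₁.Finite) (hM₂ : M₂.Finite) (h1₁ : (1 : X) ∉ M₁) (h1₂ : (1 : Y) ∉ M₂) :
    ∃ (L : Type) (_ : Group L) (g₁ : X →* L) (g₂ : Y →* L), Surjective g₁ ∧ Surjective g₂ ∧ NEH L ∧
      (∀ m ∈ M₁, g₁ m ≠ 1) ∧ (∀ m ∈ M₂, g₂ m ≠ 1) ∧ Injective (g₁.comp i₁) ∧ (g₁.comp i₁).range = fcr L := by
  classical
  have hn₁ : i₁.range.Normal := by rw [hr₁]; infer_instance
  have hn₂ : i₂.range.Normal := by rw [hr₂]; infer_instance
  have hf₁ : Finite i₁.range := Finite.of_surjective i₁.rangeRestrict i₁.rangeRestrict_surjective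
  have hf₂ : Finite i₂.range := Finite.of_surjective i₂.rangeRestrict i₂.rangeRestrict_surjective
  have hC₁ := centralizer_finiteIndex' i₁.range hn₁ hf₁
  have hC₂ := centralizer_finiteIndex' i₂.range hn₂ hf₂
  obtain ⟨D, _, j₁, j₂, hj₁, hj₂, hglue, hgenD, hsc⟩ :=
    amalgSCP hAm hFP hFL hFC hSC hB2 hB3 hB4 i₁ i₂ hi₁ hi₂ hr₁ hr₂ hX hY
      (centralizer (i₁.range : Set X)) (centralizer (i₂.range : Set Y)) hC₁ hC₂
      (fun h hh e => (mem_centralizer_iff.1 hh) _ ⟨e, rfl⟩)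
      (fun h hh e => (mem_centralizer_iff.1 hh) _ ⟨e, rfl⟩)
  obtain ⟨S, hScl, hSfin⟩ := Group.fg_iff.1 hX.1.fg_A
  obtain ⟨S', hScl', hSfin'⟩ := Group.fg_iff.1 hY.1.fg_A
  choose py hpy using V2_partner i₁ i₂ hi₁ hn₁ hact.le
  choose px hpx using V2_partner i₂ i₁ hi₂ hn₂ hact.ge
  have hfinS : Finite (insert (1 : X) S : Set X) := hSfin.insert 1
  have hfinS' : Finite (insert (1 : Y) S' : Set Y) := hSfin'.insert 1
  have hneS : Nonempty (insert (1 : X) S : Set X) := ⟨⟨1, Set.mem_insert _ _⟩⟩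
  -- the two families of relators commute with `K`
  have hcom : ∀ (x y : D) (k : K), x * j₁ (i₁ k) * x⁻¹ = y * j₁ (i₁ k) * y⁻¹ →
      j₁ (i₁ k) * (x⁻¹ * y) = (x⁻¹ * y) * j₁ (i₁ k) := by
    intro x y k h
    calc j₁ (i₁ k) * (x⁻¹ * y) = x⁻¹ * (x * j₁ (i₁ k) * x⁻¹) * y := by group
      _ = (x⁻¹ * y) * j₁ (i₁ k) := by rw [h]; group
  let gg : (insert (1 : X) S : Set X) ⊕ (insert (1 : Y) S' : Set Y) → D :=
    Sum.elim (fun x => (j₁ x)⁻¹ * j₂ (py x)) (fun y => (j₂ y)⁻¹ * j₁ (px y))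
  obtain ⟨w, hw₁, hw₂, hNEH, hM, hfcr⟩ :=
    hsc ((insert (1 : X) S : Set X) ⊕ (insert (1 : Y) S' : Set Y))
      (Sum.elim (fun _ => false) (fun _ => true)) gg
      (by
        rintro (⟨x, hx⟩ | ⟨y, hy⟩) k
        · refine hcom (j₁ x) (j₂ (py x)) k ?_
          obtain ⟨k', h1, h2⟩ := hpy x k
          rw [← map_inv, ← map_mul, ← map_mul, h1, hglue, ← h2, map_mul, map_mul, map_inv, hglue]
        · refine hcom (j₂ y) (j₁ (px y)) k ?_
          obtain ⟨k', h1, h2⟩ := hpx y k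
          rw [← map_inv (f := j₁), ← map_mul (f := j₁), ← map_mul (f := j₁), h2, hglue, hglue,
            ← h1, map_mul, map_mul, map_inv])
      ((j₁ '' M₁ ∪ j₂ '' M₂) ∪ (j₁.comp i₁) '' {k | k ≠ 1})
      (((hM₁.image _).union (hM₂.image _)).union ((Set.toFinite _).image _))
      (by
        rintro ((⟨x, hx, h⟩ | ⟨y, hy, h⟩) | ⟨k, hk, h⟩)
        · have : x = 1 := by apply hj₁; rw [map_one]; exact h
          exact h1₁ (this ▸ hx)
        · have : y = 1 := by apply hj₂; rw [map_one]; exact h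
          exact h1₂ (this ▸ hy)
        · apply hk
          apply hi₁
          apply hj₁
          rw [map_one, map_one]
          exact h)
  set N : Subgroup D := normalClosure (Set.range fun i => gg i * w i) with hN
  let q : D →* D ⧸ N := QuotientGroup.mk' N
  have hqs : Surjective q := QuotientGroup.mk'_surjective N
  have hrel : ∀ p, q (gg p) * q (w p) = 1 := by
    intro p
    rw [← map_mul, ← MonoidHom.mem_ker, QuotientGroup.ker_mk']
    exact subset_normalClosure ⟨p, rfl⟩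
  have hXY : ∀ x, q (j₁ x) ∈ (q.comp j₂).range := by
    intro x
    have hx : x ∈ closure S := by rw [hScl]; exact mem_top _
    induction hx using closure_induction with
    | mem s hs =>
      obtain ⟨c, hc, hc2⟩ := hw₂ (Sum.inl ⟨s, Set.mem_insert_of_mem _ hs⟩) rfl
      have h1 := hrel (Sum.inl ⟨s, Set.mem_insert_of_mem _ hs⟩)
      rw [← hc2] at h1
      change q ((j₁ s)⁻¹ * j₂ (py s)) * q (j₂ c) = 1 at h1
      refine ⟨py s * c, ?_⟩
      rw [map_mul, map_inv, mul_assoc, inv_mul_eq_one] at h1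
      rw [h1, map_mul]
      rfl
    | one => simp
    | mul x y _ _ hx hy => rw [map_mul, map_mul]; exact mul_mem hx hy
    | inv x _ hx => rw [map_inv, map_inv]; exact inv_mem hx
  have hYX : ∀ y, q (j₂ y) ∈ (q.comp j₁).range := by
    intro y
    have hy : y ∈ closure S' := by rw [hScl']; exact mem_top _
    induction hy using closure_induction with
    | mem s hs =>
      obtain ⟨c, hc, hc2⟩ := hw₁ (Sum.inr ⟨s, Set.mem_insert_of_mem _ hs⟩) rfl
      have h1 := hrel (Sum.inr ⟨s, Set.mem_insert_of_mem _ hs⟩)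
      rw [← hc2] at h1
      change q ((j₂ s)⁻¹ * j₁ (px s)) * q (j₁ c) = 1 at h1
      refine ⟨px s * c, ?_⟩
      rw [map_mul, map_inv, mul_assoc, inv_mul_eq_one] at h1
      rw [h1, map_mul]
      rfl
    | one => simp
    | mul x y _ _ hx hy => rw [map_mul, map_mul]; exact mul_mem hx hy
    | inv x _ hx => rw [map_inv, map_inv]; exact inv_mem hx
  have hs₁ : Surjective (q.comp j₁) := by
    rw [← MonoidHom.range_eq_top, eq_top_iff]
    have h1 : (j₁.range ⊔ j₂.range).map q ≤ (q.comp j₁).range := by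
      rw [Subgroup.map_sup, sup_le_iff]
      constructor
      · rintro _ ⟨_, ⟨x, rfl⟩, rfl⟩
        exact ⟨x, rfl⟩
      · rintro _ ⟨_, ⟨y, rfl⟩, rfl⟩
        exact hYX y
    rw [hgenD, map_top_of_surjective q hqs] at h1
    exact h1
  have hs₂ : Surjective (q.comp j₂) := by
    rw [← MonoidHom.range_eq_top, eq_top_iff]
    have h1 : (j₁.range ⊔ j₂.range).map q ≤ (q.comp j₂).range := by
      rw [Subgroup.map_sup, sup_le_iff]
      constructor
      · rintro _ ⟨_, ⟨x, rfl⟩, rfl⟩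
        exact hXY x
      · rintro _ ⟨_, ⟨y, rfl⟩, rfl⟩
        exact ⟨y, rfl⟩
    rw [hgenD, map_top_of_surjective q hqs] at h1
    exact h1
  have hker : ∀ m, q m = 1 → m ∈ N := by
    intro m h
    rwa [← MonoidHom.mem_ker, QuotientGroup.ker_mk'] at h
  refine ⟨D ⧸ N, inferInstance, q.comp j₁, q.comp j₂, hs₁, hs₂, hNEH, ?_, ?_, ?_, ?_⟩
  · intro m hm h
    exact hM (j₁ m) (Or.inl (Or.inl ⟨m, hm, rfl⟩)) (hker _ h)
  · intro m hm h
    exact hM (j₂ m) (Or.inl (Or.inr ⟨m, hm, rfl⟩)) (hker _ h)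
  · rw [injective_iff_map_eq_one]
    intro k hk
    by_contra hne
    exact hM (j₁ (i₁ k)) (Or.inr ⟨k, hne, rfl⟩) (hker _ hk)
  · apply le_antisymm
    · have hnr : ((q.comp j₁).comp i₁).range.Normal := by
        rw [MonoidHom.range_comp]
        exact hn₁.map _ hs₁
      have hfr : Finite ((q.comp j₁).comp i₁).range :=
        Finite.of_surjective _ (MonoidHom.rangeRestrict_surjective _)
      exact le_fcr _
    · refine hfcr.trans ?_
      rintro _ ⟨_, ⟨k, rfl⟩, rfl⟩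
      exact ⟨k, rfl⟩

end Pool.SC
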