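import Pool.Agent.Lib.MP_565fc2_lc.SN.V2

/-!
# SN-W1: radicals in the marked groups

`isRad_iff`: `fcr G` is finite (`B1`), normal (`fcr_normal`) and contains all finite normal subgroups (`le_fcr`).
`trans_HKA`: `q1 ∈ V1 ∩ H`, `q2 ∈ V2 ∩ H` give `i₁ : K →* q1.grp`, `i₂`; `exists_finite_avoid` for `V1, q1` and `V2, q2`; `commonQ`; `quoM q1 g₁ ∈ V1`, `quoM q2 g₂ ∈ V2` are isomorphic
(`quoE`), and `hcl` shows that `quoM q1 g₁ ∈ H` (transport `HKA` along `quoE`).  As in `T_yes` (SC/TMain.lean).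
-/

set_option autoImplicit false

namespace Pool.SC

open Subgroup Function

theorem isRad_iff (hB1 : B1) {G : Type} [Group G] (hG : NEH G) (N : Subgroup G) : IsRad N ↔ N = fcr G := by
  have hf := hB1 G hG
  constructor
  · rintro ⟨h1, h2, h3⟩
    exact le_antisymm (le_fcr N) (h3 _ fcr_normal hf)
  · rintro rfl
    exact ⟨fcr_normal, hf, fun N' h h' => @le_fcr _ _ N' h h'⟩

/-- the largest finite normal subgroup is preserved by isomorphisms -/
private theorem isRad_equiv {G G' : Type} [Group G] [Group G'] (e : G ≃* G') {N : Subgroup G} (h : IsRad N) :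
    IsRad (N.map e.toMonoidHom) := by
  obtain ⟨h1, h2, h3⟩ := h
  refine ⟨h1.map _ e.surjective, ?_, ?_⟩
  · exact Set.Finite.image e (show (N : Set G).Finite from h2)
  · intro N' hn hf x hx
    have hc : N'.comap e.toMonoidHom ≤ N := by
      refine h3 _ (hn.comap _) ?_
      have hf' : (N' : Set G').Finite := hf
      have h : (e ⁻¹' (N' : Set G')).Finite := hf'.preimage e.injective.injOn
      exact h
    refine ⟨e.symm x, hc ?_, ?_⟩
    · change e (e.symm x) ∈ N'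
      rw [MulEquiv.apply_symm_apply]
      exact hx
    · exact e.apply_symm_apply x

theorem isoInv_HP {P : (K : Type) → [Group K] → Prop} (hiso : ∀ (K L : Type) [Group K] [Group L], Nonempty (K ≃* L) → P K → P L) :
    IsoInv (HP P) := by
  rintro M M' ⟨e⟩ ⟨hM, N, hN, hP⟩
  refine ⟨t_neh_equiv e hM, N.map e.toMonoidHom, isRad_equiv e hN, ?_⟩
  exact hiso N (N.map e.toMonoidHom) ⟨e.subgroupMap N⟩ hP

/-- the FC-centre is preserved by isomorphisms -/
private theorem fcr_equiv {G G' : Type} [Group G] [Group G'] (e : G ≃* G') : (fcr G).map e.toMonoidHom = fcr G' := by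
  apply le_antisymm
  · rintro _ ⟨x, hx, rfl⟩
    exact map_mem_fcr e.toMonoidHom e.surjective hx
  · intro y hy
    exact ⟨e.symm y, map_mem_fcr e.symm.toMonoidHom e.symm.surjective hy, e.apply_symm_apply y⟩

private theorem hka_of {K : Type} [Group K] {A : Subgroup (MulAut K)} {L : Type} [Group L] {q : MGrp} (e : L ≃* q.grp)
    (hL : NEH L) (i : K →* L) (hi : Injective i) (hr : i.range = fcr L) (hA : actI i = A) : q ∈ HKA K A := by
  have hinj : Injective (e.toMonoidHom.comp i) := e.injective.comp hi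
  refine ⟨t_neh_equiv e hL, e.toMonoidHom.comp i, hinj, ?_, ?_⟩
  · rw [MonoidHom.range_comp, hr, fcr_equiv]
  · rw [actI_comp i e.toMonoidHom e.surjective (hr ▸ fcr_normal) hinj, hA]

/-- `HKA` is invariant under isomorphisms -/
theorem hka_equiv {K : Type} [Group K] {A : Subgroup (MulAut K)} {p q : MGrp} (e : p.grp ≃* q.grp) (h : p ∈ HKA K A) : q ∈ HKA K A := by
  obtain ⟨hp, i, hi, hr, hA⟩ := h
  exact hka_of e hp i hi hr hA

theorem trans_HKA (hAm : Amalg) (hFP : FreeProdHyp) (hFL : FreeProdLox) (hFC : FreeProdFC)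
    (hSC : ScGenP) (hB2 : B2) (hB3 : B3) (hB4 : B4) {H V : Set MGrp} {K : Type} [Group K] [Finite K] (A : Subgroup (MulAut K))
    (h1 : ∀ q ∈ V, q ∈ H → q ∈ HKA K A) (h2 : ∀ q ∈ HKA K A, q ∈ H) : Trans H V := by
  rintro V1 V2 hV1 hV2 hV1o hV2o ⟨q1, hq1V, hq1H⟩ ⟨q2, hq2V, hq2H⟩
  obtain ⟨hN1, i₁, hi₁, hr₁, hA₁⟩ := h1 q1 (hV1 hq1V) hq1H
  obtain ⟨hN2, i₂, hi₂, hr₂, hA₂⟩ := h1 q2 (hV2 hq2V) hq2H
  obtain ⟨M1, hM1f, hM11, hM1V⟩ := exists_finite_avoid hV1o hq1V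
  obtain ⟨M2, hM2f, hM21, hM2V⟩ := exists_finite_avoid hV2o hq2V
  obtain ⟨L, _, g1, g2, hg1, hg2, hL, hg1M, hg2M, hinj, hrL⟩ := commonQ hAm hFP hFL hFC hSC hB2 hB3 hB4 hN1 hN2 i₁ i₂
    hi₁ hi₂ hr₁ hr₂ (hA₁.trans hA₂.symm) M1 M2 hM1f hM2f hM11 hM21
  refine ⟨quoM q1 g1, hM1V L g1 hg1M, quoM q2 g2, hM2V L g2 hg2M, h2 _ ?_,
    ⟨(quoE q1 g1 hg1).trans (quoE q2 g2 hg2).symm⟩⟩
  refine hka_of (quoE q1 g1 hg1).symm hL (g1.comp i₁) hinj hrL ?_
  rw [actI_comp i₁ g1 hg1 (hr₁ ▸ fcr_normal) hinj, hA₁]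

end Pool.SC
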