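import Pool.Agent.Lib.MP_565fc2_lc.SN.W1
import Pool.Agent.Lib.MP_565fc2_lc.SN.U4

/-!
# SN-W2: Noetherian classes of radicals

`noeth_local`.  Let `p ∈ U ∩ HP P`.  For `p, p' ∈ U ∩ HP P` put `p → p'` if `p.ker ≤ p'.ker` and the induced homomorphism `p.grp → p'.grp` is injective on `fcr p.grp` and maps it to a proper
subgroup of `fcr p'.grp` (`map_mem_fcr`).  If every `p ∈ U ∩ HP P` had a successor, dependent choice would give an infinite sequence, and `K n = fcr (p n).grp` would be an ascending chain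
(the image of `fcr p.grp` is normal in `p'.grp`, so in `fcr p'.grp`; `isRad_iff`: `P (fcr (p n).grp)`, finite).  So there is `p' ∈ U ∩ HP P` without successor.
`V = U ∩ {q | p'.ker ≤ q.ker} ∩ {q | the nontrivial elements of fcr p'.grp survive}` (`isOpen_above`, or `exists_open_quotients` with `π = id`).  For `q ∈ V ∩ HP P` the map `f : p'.grp → q.grp`
is injective on `K := fcr p'.grp` and maps it onto `fcr q.grp`: `i = f ∘ incl`, `actI i = actI incl` (`actI_comp`): `q ∈ HKA K (actI incl)`.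
`q1_noeth`: `q1_of_trans` with `V` from `noeth_local` and `trans_HKA` (`h2`: `q ∈ HKA K A` has `fcr q.grp ≃* K`, so `q ∈ HP P` by `hiso`).
-/

set_option autoImplicit false

namespace Pool.SC

open Subgroup Function

/-- a marked group with a bigger radical -/
private def W2_succ (p q : MGrp) : Prop :=
  ∃ f : p.grp →* q.grp, Surjective f ∧ (∀ x ∈ fcr p.grp, f x = 1 → x = 1) ∧ ¬ fcr q.grp ≤ (fcr p.grp).map f

private theorem W2_P (hB1 : B1) {P : (K : Type) → [Group K] → Prop} {p : MGrp} (h : p ∈ HP P) :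
    NEH p.grp ∧ P (fcr p.grp) ∧ Finite (fcr p.grp) := by
  obtain ⟨hG, N, hN, hP⟩ := h
  rw [isRad_iff hB1 hG] at hN
  subst hN
  exact ⟨hG, hP, hB1 _ hG⟩

private theorem W2_chain (hB1 : B1) {P : (K : Type) → [Group K] → Prop} (s : ℕ → MGrp) (h : ∀ n, s n ∈ HP P)
    (hs : ∀ n, W2_succ (s n) (s (n + 1))) : AscChain P := by
  choose f hf hinj hns using hs
  have hmem : ∀ n, ∀ x : fcr (s n).grp, f n x ∈ fcr (s (n + 1)).grp := fun n x => map_mem_fcr (f n) (hf n) x.2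
  refine ⟨fun n => fcr (s n).grp, fun n => inferInstance,
    fun n => ((f n).comp (fcr (s n).grp).subtype).codRestrict (fcr (s (n + 1)).grp) (fun x => hmem n x),
    fun n => ⟨(W2_P hB1 (h n)).2.2, (W2_P hB1 (h n)).2.1, ?_, ?_, ?_⟩⟩
  · rw [injective_iff_map_eq_one]
    intro x hx
    have h1 : f n (x : (s n).grp) = 1 := congrArg Subtype.val hx
    exact Subtype.ext (hinj n x x.2 h1)
  · constructor
    rintro _ ⟨x, rfl⟩ g
    obtain ⟨y, hy⟩ := hf n (g : (s (n + 1)).grp)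
    refine ⟨⟨y * x * y⁻¹, (fcr_normal (G := (s n).grp)).conj_mem x x.2 y⟩, Subtype.ext ?_⟩
    change f n (y * x * y⁻¹) = g * f n x * (g : (s (n + 1)).grp)⁻¹
    rw [map_mul, map_mul, map_inv, hy]
  · intro hsurj
    refine hns n fun z hz => ?_
    obtain ⟨x, hx⟩ := hsurj ⟨z, hz⟩
    exact ⟨x, x.2, congrArg Subtype.val hx⟩

private theorem W2_id (p : MGrp) : quoM p (MonoidHom.id p.grp) = p := by
  apply MGrp.ext'
  ext w
  rw [mem_quoM]
  exact QuotientGroup.eq_one_iff w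

theorem noeth_local (hfp : FPk) (hB1 : B1) {P : (K : Type) → [Group K] → Prop}
    (hiso : ∀ (K L : Type) [Group K] [Group L], Nonempty (K ≃* L) → P K → P L) (hch : ¬ AscChain P)
    (U : Set MGrp) (hU : IsOpen U) (hne : (U ∩ HP P).Nonempty) :
    ∃ V ⊆ U, IsOpen V ∧ (V ∩ HP P).Nonempty ∧ ∃ (K : Type) (_ : Group K) (_ : Finite K) (A : Subgroup (MulAut K)), P K ∧
      ∀ q ∈ V, q ∈ HP P → q ∈ HKA K A := by
  classical
  obtain ⟨p', hp', hmax⟩ : ∃ p' ∈ U ∩ HP P, ∀ q ∈ U ∩ HP P, ¬ W2_succ p' q := by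
    by_contra hcon
    push Not at hcon
    have hstep : ∀ x : {p : MGrp // p ∈ U ∩ HP P}, ∃ y : {p : MGrp // p ∈ U ∩ HP P}, W2_succ x.1 y.1 := by
      intro x
      obtain ⟨q, hq, hs⟩ := hcon x.1 x.2
      exact ⟨⟨q, hq⟩, hs⟩
    choose g hg using hstep
    obtain ⟨p0, hp0⟩ := hne
    let s : ℕ → {p : MGrp // p ∈ U ∩ HP P} := fun n => Nat.rec ⟨p0, hp0⟩ (fun _ x => g x) n
    exact hch (W2_chain hB1 (fun n => (s n).1) (fun n => (s n).2.2) (fun n => hg (s n)))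
  obtain ⟨hG, hPK, hfin⟩ := W2_P hB1 hp'.2
  obtain ⟨V0, hV0o, hpV0, hV0⟩ := exists_open_quotients hfp p' (MonoidHom.id p'.grp) surjective_id hG.1
    {x : p'.grp | x ∈ fcr p'.grp ∧ x ≠ 1} ((Set.toFinite (fcr p'.grp : Set p'.grp)).subset fun x hx => hx.1)
    (fun h => h.2 rfl)
  rw [W2_id] at hpV0
  refine ⟨U ∩ V0, Set.inter_subset_left, hU.inter hV0o, ⟨p', ⟨hp'.1, hpV0⟩, hp'.2⟩, fcr p'.grp, inferInstance, hfin,
    actI (fcr p'.grp).subtype, hPK, ?_⟩
  rintro q ⟨hqU, hqV0⟩ hqP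
  obtain ⟨f, hf, hfM⟩ := hV0 q hqV0
  have hinj : ∀ x ∈ fcr p'.grp, f x = 1 → x = 1 := by
    intro x hx h1
    by_contra hne1
    exact hfM x ⟨hx, hne1⟩ h1
  have hle : fcr q.grp ≤ (fcr p'.grp).map f := by
    by_contra hcon
    exact hmax q ⟨hqU, hqP⟩ ⟨f, hf, hinj, hcon⟩
  have hi : Injective (f.comp (fcr p'.grp).subtype) := by
    rw [injective_iff_map_eq_one]
    intro x hx
    exact Subtype.ext (hinj x x.2 hx)
  refine ⟨(W2_P hB1 hqP).1, f.comp (fcr p'.grp).subtype, hi, ?_, ?_⟩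
  · rw [MonoidHom.range_comp, Subgroup.range_subtype]
    refine le_antisymm ?_ hle
    rintro _ ⟨x, hx, rfl⟩
    exact map_mem_fcr f hf hx
  · refine actI_comp (fcr p'.grp).subtype f hf ?_ hi
    rw [Subgroup.range_subtype]
    exact fcr_normal

theorem q1_noeth {P : (K : Type) → [Group K] → Prop}
    (hiso : ∀ (K L : Type) [Group K] [Group L], Nonempty (K ≃* L) → P K → P L) (hch : ¬ AscChain P) : Q1H (HP P) := by
  refine q1_of_trans (isoInv_HP hiso) ?_
  intro U hU hne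
  obtain ⟨V, hVU, hVo, hne', K, _, _, A, hPK, hV⟩ := noeth_local fpk b1 hiso hch U hU hne
  refine ⟨V, hVU, hVo, hne', trans_HKA amalg freeProdHyp freeProdLox freeProdFC (scGenP dehnHyp b1 b4) b2 b3 b4 A hV ?_⟩
  rintro q ⟨hG, i, hi, hr, -⟩
  refine ⟨hG, fcr q.grp, (isRad_iff b1 hG _).2 rfl, ?_⟩
  exact hiso K (fcr q.grp) ⟨(MonoidHom.ofInjective hi).trans (MulEquiv.subgroupCongr hr)⟩ hPK

end Pool.SC
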