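import Pool.Agent.Lib.MP_565fc2_lc.SN.Defs

/-!
# SN-X1: the generic theory on a transitive open set

This is the statement `key` inside the proof of `q1_of_trans` (SC/TFrame.lean): `T = {σ | ¬ IsMeagre (V ∩ A σ)}`.
-/

set_option autoImplicit false

namespace Pool.SC

open FirstOrder FirstOrder.Language Topology

theorem theory_of_trans {H : Set MGrp} (hinv : IsoInv H) {V : Set MGrp} (hV : IsOpen V) (hT : Trans H V) :
    ∃ T : LG.Theory, {x : closure H | (x : MGrp) ∈ V → Th (x : MGrp) = T} ∈ residual (closure H) := by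
  classical
  let val : closure H → MGrp := fun x => (x : MGrp)
  let A : LG.Sentence → Set (closure H) := fun σ => val ⁻¹' (holds σ)
  refine ⟨{σ | ¬ IsMeagre (val ⁻¹' V ∩ A σ)}, ?_⟩
  let Z : LG.Sentence → Set (closure H) := fun σ =>
    if IsMeagre (val ⁻¹' V ∩ A σ) then val ⁻¹' V ∩ A σ else val ⁻¹' V \ A σ
  have hZ : ∀ σ, (Z σ)ᶜ ∈ residual (closure H) := by
    intro σ
    have : IsMeagre (Z σ) := by
      simp only [Z]
      split_ifs with h
      · exact h
      · rcases zero_one hinv hV hT (baire_holds (closure H) σ) (A := A σ) (by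
          intro x y he hx
          obtain ⟨e⟩ := he
          exact (th_eq_iff.1 (th_eq_of_equiv e) σ).1 hx) with h1 | h1
        · exact absurd h1 h
        · exact h1
    exact this
  have hall : (⋂ σ, (Z σ)ᶜ) ∈ residual (closure H) := countable_iInter_mem.2 hZ
  filter_upwards [hall] with x hx hxV
  rw [Set.mem_iInter] at hx
  ext σ
  have hxσ := hx σ
  have hmem : σ ∈ Th (val x) ↔ x ∈ A σ := Iff.rfl
  change σ ∈ Th (val x) ↔ _
  rw [hmem]
  change x ∈ A σ ↔ ¬ IsMeagre (val ⁻¹' V ∩ A σ)
  simp only [Z] at hxσ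
  split_ifs at hxσ with h
  · constructor
    · intro h1
      exact absurd ⟨hxV, h1⟩ hxσ
    · intro h1
      exact absurd h h1
  · constructor
    · intro _
      exact h
    · intro _
      by_contra h2
      exact hxσ ⟨hxV, h2⟩

end Pool.SC
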