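import Pool.Agent.Lib.MP_565fc2_lc.SN.Defs

/-!
# SN-X2: a sentence for `VK`

As `exists_sentence` in SC/TSent.lean, with one more conjunct: the quantifier free formulas `x_k * x_l = x_(k l)` for all `k, l : K` (so `k ↦ x_k` is a homomorphism).
`p ∈ VK K A` iff there is an injective `i : K →* p.grp` such that conjugation by any group element permutes the `i k` by some `a ∈ A` and every `a ∈ A` occurs
(normality of the range: conjugation with `g` gives an automorphism of `K`, it is in `actI i = A`).
-/

set_option autoImplicit false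

namespace Pool.SC

open Function FirstOrder FirstOrder.Language

/-- the quantifier free formulas `x_k * x_l = x_(k l)` -/
private noncomputable def X2_homF (K : Type) [Group K] [Finite K] : LG.Formula (Empty ⊕ K) :=
  Formula.iInf fun q : K × K => Term.equal
    (tMul (Term.var (Sum.inr q.1)) (Term.var (Sum.inr q.2))) (Term.var (Sum.inr (q.1 * q.2)))

private theorem X2_realize_homF {K G : Type} [Group K] [Finite K] [Group G] (v : Empty → G)
    (x : K → G) : (X2_homF K).Realize (Sum.elim v x) ↔ ∀ k l, x k * x l = x (k * l) := by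
  unfold X2_homF
  rw [Formula.realize_iInf]
  constructor
  · intro h k l
    have := h (k, l)
    rw [Formula.realize_equal, realize_tMul] at this
    simpa only [Term.realize_var, Sum.elim_inr] using this
  · rintro h ⟨k, l⟩
    rw [Formula.realize_equal, realize_tMul]
    simpa only [Term.realize_var, Sum.elim_inr] using h k l

private theorem X2_sentence (K P : Type) [Group K] [Finite K] [Finite P] (σ : P → K → K) :
    ∃ φ : LG.Sentence, ∀ (G : Type) [Group G], G ⊨ φ ↔ ∃ x : K → G, Injective x ∧
      (∀ k l, x k * x l = x (k * l)) ∧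
      (∀ y : G, ∃ p : P, ∀ f : K, y * x f * y⁻¹ = x (σ p f)) ∧
      (∀ p : P, ∃ y : G, ∀ f : K, y * x f * y⁻¹ = x (σ p f)) := by
  classical
  let φ1 : LG.Formula (Empty ⊕ K) := Formula.iInf fun f : {q : K × K // q.1 ≠ q.2} =>
    (Term.equal (Term.var (Sum.inr f.1.1)) (Term.var (Sum.inr f.1.2))).not
  let φ2 : LG.Formula (Empty ⊕ K) := Formula.iAlls Unit (Formula.iSup fun p : P => permF (σ p))
  let φ3 : LG.Formula (Empty ⊕ K) := Formula.iInf fun p : P => Formula.iExs Unit (permF (σ p))
  refine ⟨Formula.iExs K (φ1 ⊓ (X2_homF K ⊓ (φ2 ⊓ φ3))), fun G _ => ?_⟩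
  unfold Sentence.Realize
  rw [Formula.realize_iExs]
  refine exists_congr fun x => ?_
  rw [Formula.realize_inf, Formula.realize_inf, Formula.realize_inf]
  refine and_congr ?_ (and_congr ?_ (and_congr ?_ ?_))
  · simp only [φ1]
    rw [Formula.realize_iInf]
    constructor
    · intro h a b hab
      by_contra hne
      have := h ⟨(a, b), hne⟩
      rw [Formula.realize_not, Formula.realize_equal] at this
      exact this hab
    · intro h f
      rw [Formula.realize_not, Formula.realize_equal]
      intro he
      exact f.2 (h he)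
  · exact X2_realize_homF _ x
  · simp only [φ2]
    rw [Formula.realize_iAlls]
    constructor
    · intro h y
      have := h (fun _ => y)
      rw [Formula.realize_iSup] at this
      obtain ⟨p, hp⟩ := this
      exact ⟨p, (realize_permF (σ p) _ x (fun _ => y)).1 hp⟩
    · intro h y
      rw [Formula.realize_iSup]
      obtain ⟨p, hp⟩ := h (y ())
      exact ⟨p, (realize_permF (σ p) _ x y).2 hp⟩
  · simp only [φ3]
    rw [Formula.realize_iInf]
    refine forall_congr' fun p => ?_
    rw [Formula.realize_iExs]
    constructor
    · rintro ⟨y, hy⟩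
      exact ⟨y (), (realize_permF (σ p) _ x (fun _ => y ())).1 hy⟩
    · rintro ⟨y, hy⟩
      exact ⟨fun _ => y, (realize_permF (σ p) _ x (fun _ => y)).2 hy⟩

theorem exists_sentenceK (K : Type) [Group K] [Finite K] (A : Subgroup (MulAut K)) :
    ∃ φ : LG.Sentence, ∀ p : MGrp, p ∈ holds φ ↔ p ∈ VK K A := by
  have : Finite (MulAut K) :=
    Finite.of_injective (fun a : MulAut K => (a : K → K)) fun a b h => MulEquiv.ext (congrFun h)
  obtain ⟨φ, hφ⟩ := X2_sentence K A fun a k => (a : MulAut K) k
  refine ⟨φ, fun p => ?_⟩
  have h0 : p ∈ holds φ ↔ p.grp ⊨ φ := Iff.rfl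
  rw [h0, hφ p.grp]
  constructor
  · rintro ⟨x, hx, hmul, hall, hex⟩
    let i : K →* p.grp := MonoidHom.mk' x fun k l => (hmul k l).symm
    have hi : ∀ k, i k = x k := fun k => rfl
    refine ⟨i, hx, ⟨?_⟩, ?_⟩
    · rintro _ ⟨k, rfl⟩ g
      obtain ⟨a, ha⟩ := hall g
      exact ⟨(a : MulAut K) k, by rw [hi, hi, ha]⟩
    · ext b
      rw [mem_actI]
      constructor
      · rintro ⟨g, hg⟩
        obtain ⟨a, ha⟩ := hall g
        have : b = (a : MulAut K) := by
          ext k
          apply hx
          have h1 := hg k
          have h2 := ha k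
          rw [hi, hi] at h1
          exact h1.symm.trans h2
        rw [this]
        exact a.2
      · intro hb
        obtain ⟨y, hy⟩ := hex ⟨b, hb⟩
        exact ⟨y, fun k => by rw [hi, hi]; exact hy k⟩
  · rintro ⟨i, hi, hn, hA⟩
    refine ⟨i, hi, fun k l => (map_mul i k l).symm, fun y => ?_, fun a => ?_⟩
    · have hmem : ∀ k, ∃ l, i l = y * i k * y⁻¹ := fun k => hn.conj_mem (i k) ⟨k, rfl⟩ y
      have hmem' : ∀ k, ∃ l, i l = y⁻¹ * i k * y := fun k => by
        have := hn.conj_mem (i k) ⟨k, rfl⟩ y⁻¹
        rwa [inv_inv] at this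
      choose f hf using hmem
      choose g hg using hmem'
      let b : MulAut K :=
        { toFun := f
          invFun := g
          left_inv := fun k => by
            apply hi
            rw [hg, hf]
            group
          right_inv := fun k => by
            apply hi
            rw [hf, hg]
            group
          map_mul' := fun k l => by
            apply hi
            rw [map_mul, hf, hf, hf, map_mul]
            group }
      have hb : b ∈ actI i := ⟨y, fun k => (hf k).symm⟩
      rw [hA] at hb
      exact ⟨⟨b, hb⟩, fun k => (hf k).symm⟩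
    · have ha : (a : MulAut K) ∈ actI i := by
        rw [hA]
        exact a.2
      obtain ⟨y, hy⟩ := ha
      exact ⟨y, hy⟩

end Pool.SC
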