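import Pool.Agent.Lib.MP_565fc2_lc.SN.W1

/-!
# SN-X3: the sets `VK`

`isOpen_VK`: let `q ∈ VK K A` with `i`; lift `i k` to words `w k`; `n = q.rk`.  The set of all `q'` with `q' ∈ lev n` (open, `isOpen_lev`) which agree with `q` on the finitely many words
`w k * w l * (w (k l))⁻¹`, `w k` (`k ≠ 1`), `of j * w k * (of j)⁻¹ * (w (α_j k))⁻¹` (`j < n`, `α_j ∈ MulAut K` the action of `a_j` in `q`) is an open neighbourhood of `q`
(`isOpen_mem`, `isOpen_notMem`); in `q'` the classes of the `w k` give `i'`, the generators `a_j` act by `α_j` (`j < n`), trivially for `j ≥ n`, so the range is normal and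
`actI i' =` the subgroup generated by the `α_j` `= actI i = A`.
`hk_inter_VK`: the range of `i` is a finite normal subgroup, so `≤ fcr`, and `Nat.card (fcr q.grp) = Nat.card K` (`isRad_iff`), so it is equal.
`hka_conj`: `i₁, i₂ : K →* q.grp` injective with the same range: `i₂ = i₁ ∘ b`.  Then `a ∈ actI i₂ ↔ b a b⁻¹ ∈ actI i₁`.
`inn_le`: conjugation with `i k`.
-/

set_option autoImplicit false

namespace Pool.SC

open Subgroup Function

/-- every element acts by an automorphism -/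
private theorem X3_exists_act {K G : Type} [Group K] [Group G] {i : K →* G} (hi : Injective i) (hn : i.range.Normal) (g : G) :
    ∃ a : MulAut K, ∀ k, g * i k * g⁻¹ = i (a k) := by
  have := hn
  let e : K ≃* i.range := MonoidHom.ofInjective hi
  refine ⟨(e.trans (MulAut.conjNormal g)).trans e.symm, fun k => ?_⟩
  have h1 : ∀ x : i.range, i (e.symm x) = x := by
    intro x
    have h2 : (e (e.symm x) : G) = i (e.symm x) := MonoidHom.ofInjective_apply hi
    rw [← h2, MulEquiv.apply_symm_apply]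
  change g * i k * g⁻¹ = i (e.symm (MulAut.conjNormal g (e k)))
  rw [h1, MulAut.conjNormal_apply]
  rfl

/-- the image and the action are determined by the action of the generators -/
private theorem X3_key {K : Type} [Group K] {N : Subgroup (FreeGroup ℕ)} [N.Normal] (i : K →* FreeGroup ℕ ⧸ N) (hi : Injective i)
    (α : ℕ → MulAut K)
    (h : ∀ j k, (QuotientGroup.mk' N (FreeGroup.of j)) * i k * (QuotientGroup.mk' N (FreeGroup.of j))⁻¹ = i (α j k)) :
    i.range.Normal ∧ actI i = (FreeGroup.lift α).range := by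
  have hw : ∀ w : FreeGroup ℕ, ∀ k, (QuotientGroup.mk' N w) * i k * (QuotientGroup.mk' N w)⁻¹ = i (FreeGroup.lift α w k) := by
    intro w
    induction w using FreeGroup.induction_on with
    | C1 => intro k; simp
    | of j =>
      intro k
      rw [FreeGroup.lift_apply_of]
      exact h j k
    | inv_of j hj =>
      intro k
      have h1 := hj ((FreeGroup.lift α (FreeGroup.of j))⁻¹ k)
      rw [← MulAut.mul_apply, mul_inv_cancel, MulAut.one_apply] at h1
      rw [map_inv, map_inv, ← h1]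
      group
    | mul x y hx hy =>
      intro k
      have e : (QuotientGroup.mk' N (x * y)) * i k * (QuotientGroup.mk' N (x * y))⁻¹ =
          (QuotientGroup.mk' N x) * ((QuotientGroup.mk' N y) * i k * (QuotientGroup.mk' N y)⁻¹) * (QuotientGroup.mk' N x)⁻¹ := by
        rw [map_mul]
        group
      rw [e, hy, hx, map_mul, MulAut.mul_apply]
  have hs : ∀ g : FreeGroup ℕ ⧸ N, ∃ w, QuotientGroup.mk' N w = g := QuotientGroup.mk'_surjective N
  constructor
  · constructor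
    rintro _ ⟨k, rfl⟩ g
    obtain ⟨w, rfl⟩ := hs g
    exact ⟨FreeGroup.lift α w k, (hw w k).symm⟩
  · ext a
    rw [mem_actI]
    constructor
    · rintro ⟨g, hg⟩
      obtain ⟨w, rfl⟩ := hs g
      refine ⟨w, ?_⟩
      ext k
      apply hi
      rw [← hw, hg]
    · rintro ⟨w, rfl⟩
      exact ⟨QuotientGroup.mk' N w, hw w⟩

theorem isOpen_VK (K : Type) [Group K] [Finite K] (A : Subgroup (MulAut K)) : IsOpen (VK K A) := by
  classical
  rw [isOpen_iff_forall_mem_open]
  rintro q ⟨i, hi, hn, hA⟩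
  have := Fintype.ofFinite K
  have hs : ∀ k, ∃ w : FreeGroup ℕ, QuotientGroup.mk' q.ker w = i k := fun k => QuotientGroup.mk'_surjective q.ker (i k)
  choose w hw using hs
  have ha : ∀ j : ℕ, ∃ a : MulAut K, ∀ k, (QuotientGroup.mk' q.ker (FreeGroup.of j)) * i k * (QuotientGroup.mk' q.ker (FreeGroup.of j))⁻¹ = i (a k) :=
    fun j => X3_exists_act hi hn _
  choose α hα using ha
  have hk : ∀ (p : MGrp) (x y : FreeGroup ℕ), x * y⁻¹ ∈ p.ker ↔ QuotientGroup.mk' p.ker x = QuotientGroup.mk' p.ker y := by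
    intro p x y
    rw [← QuotientGroup.eq_one_iff]
    change QuotientGroup.mk' p.ker (x * y⁻¹) = 1 ↔ _
    rw [map_mul, map_inv, mul_inv_eq_one]
  have hk1 : ∀ (p : MGrp) (x : FreeGroup ℕ), x ∈ p.ker ↔ QuotientGroup.mk' p.ker x = 1 := by
    intro p x
    rw [← QuotientGroup.eq_one_iff]
    rfl
  let W : Finset (FreeGroup ℕ) :=
    (Finset.univ.image fun z : K × K => w z.1 * w z.2 * (w (z.1 * z.2))⁻¹) ∪ (Finset.univ.image w ∪
      ((Finset.range q.rk) ×ˢ (Finset.univ : Finset K)).image fun z : ℕ × K =>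
        FreeGroup.of z.1 * w z.2 * (FreeGroup.of z.1)⁻¹ * (w (α z.1 z.2))⁻¹)
  refine ⟨MGrp.bas q.rk W q, ?_, MGrp.isOpen_bas _ _ _, q.mem_lev_rk, fun x _ => Iff.rfl⟩
  rintro p ⟨hp, hpW⟩
  have hm : ∀ k l, QuotientGroup.mk' p.ker (w (k * l)) = QuotientGroup.mk' p.ker (w k) * QuotientGroup.mk' p.ker (w l) := by
    intro k l
    have h1 : w k * w l * (w (k * l))⁻¹ ∈ W :=
      Finset.mem_union_left _ (Finset.mem_image.2 ⟨(k, l), Finset.mem_univ _, rfl⟩)
    have h2 := (hpW _ h1).2 (by rw [hk, map_mul, hw, hw, hw, map_mul])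
    rw [hk, map_mul] at h2
    exact h2.symm
  let i' : K →* p.grp := MonoidHom.mk' (fun k => QuotientGroup.mk' p.ker (w k)) hm
  have hi' : ∀ k, i' k = QuotientGroup.mk' p.ker (w k) := fun k => rfl
  have hinj : Injective i' := by
    rw [injective_iff_map_eq_one]
    intro k hk2
    rw [hi', ← hk1] at hk2
    have h1 : w k ∈ W := Finset.mem_union_right _ (Finset.mem_union_left _ (Finset.mem_image_of_mem _ (Finset.mem_univ _)))
    have h2 := (hpW _ h1).1 hk2
    rw [hk1, hw] at h2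
    exact (injective_iff_map_eq_one i).1 hi k h2
  have hact : ∀ j k, (QuotientGroup.mk' p.ker (FreeGroup.of j)) * i' k * (QuotientGroup.mk' p.ker (FreeGroup.of j))⁻¹ = i' (α j k) := by
    intro j k
    by_cases hj : j < q.rk
    · have h1 : FreeGroup.of j * w k * (FreeGroup.of j)⁻¹ * (w (α j k))⁻¹ ∈ W :=
        Finset.mem_union_right _ (Finset.mem_union_right _ (Finset.mem_image.2
          ⟨(j, k), Finset.mem_product.2 ⟨Finset.mem_range.2 hj, Finset.mem_univ _⟩, rfl⟩))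
      have h2 := (hpW _ h1).2 (by rw [hk, map_mul, map_mul, map_inv, hw, hw, hα])
      rw [hk, map_mul, map_mul, map_inv] at h2
      rw [hi', hi', h2]
    · have h1 := hp j (not_lt.1 hj)
      have h2 := q.mem_lev_rk j (not_lt.1 hj)
      rw [hk1] at h1 h2
      have h3 := hα j k
      rw [h2, one_mul, inv_one, mul_one] at h3
      rw [h1, one_mul, inv_one, mul_one, ← hi h3]
  obtain ⟨h1, h2⟩ := X3_key i' hinj α hact
  obtain ⟨-, h4⟩ := X3_key i hi α hα
  exact ⟨i', hinj, h1, by rw [h2, ← h4, hA]⟩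

theorem hk_inter_VK (hB1 : B1) {K : Type} [Group K] [Finite K] {A : Subgroup (MulAut K)} {q : MGrp} (h : q ∈ HK K) (hV : q ∈ VK K A) :
    q ∈ HKA K A := by
  obtain ⟨hN, N, hR, ⟨e⟩⟩ := h
  obtain ⟨i, hi, hn, hA⟩ := hV
  rw [isRad_iff hB1 hN] at hR
  subst hR
  have := hn
  have : Finite (fcr q.grp) := hB1 _ hN
  have : Finite i.range := Finite.of_equiv K (MonoidHom.ofInjective hi).toEquiv
  refine ⟨hN, i, hi, ?_, hA⟩
  refine Subgroup.eq_of_le_of_card_ge (le_fcr i.range) ?_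
  rw [Nat.card_congr e.toEquiv, Nat.card_congr (MonoidHom.ofInjective hi).toEquiv]

theorem hka_HK (hB1 : B1) {K : Type} [Group K] {A : Subgroup (MulAut K)} {q : MGrp} (h : q ∈ HKA K A) : q ∈ HK K := by
  obtain ⟨hN, i, hi, hr, -⟩ := h
  refine ⟨hN, i.range, (isRad_iff hB1 hN _).2 hr, ⟨(MonoidHom.ofInjective hi).symm⟩⟩

theorem hka_VK {K : Type} [Group K] {A : Subgroup (MulAut K)} {q : MGrp} (h : q ∈ HKA K A) : q ∈ VK K A := by
  obtain ⟨-, i, hi, hr, hA⟩ := h
  exact ⟨i, hi, hr ▸ fcr_normal, hA⟩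

theorem hk_HKA (hB1 : B1) {K : Type} [Group K] {q : MGrp} (h : q ∈ HK K) : ∃ A : Subgroup (MulAut K), q ∈ HKA K A := by
  obtain ⟨hN, N, hR, ⟨e⟩⟩ := h
  rw [isRad_iff hB1 hN] at hR
  refine ⟨actI (N.subtype.comp e.symm.toMonoidHom), hN, N.subtype.comp e.symm.toMonoidHom,
    N.subtype_injective.comp e.symm.injective, ?_, rfl⟩
  rw [MonoidHom.range_comp, MonoidHom.range_eq_top.2 e.symm.surjective, ← MonoidHom.range_eq_map, Subgroup.range_subtype, hR]

private theorem X3_actI_conj {K G : Type} [Group K] [Group G] (i : K →* G) (b : MulAut K) :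
    actI (i.comp b.toMonoidHom) = (actI i).map (MulAut.conj b⁻¹).toMonoidHom := by
  have hb : ∀ k, b (b⁻¹ k) = k := by
    intro k
    rw [← MulAut.mul_apply, mul_inv_cancel, MulAut.one_apply]
  have hb' : ∀ k, b⁻¹ (b k) = k := by
    intro k
    rw [← MulAut.mul_apply, inv_mul_cancel, MulAut.one_apply]
  ext a
  rw [mem_actI]
  constructor
  · rintro ⟨g, hg⟩
    refine ⟨b * a * b⁻¹, ⟨g, fun k => ?_⟩, ?_⟩
    · have h := hg (b⁻¹ k)
      change g * i (b (b⁻¹ k)) * g⁻¹ = i (b (a (b⁻¹ k))) at h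
      rw [hb] at h
      exact h
    · change MulAut.conj b⁻¹ (b * a * b⁻¹) = a
      rw [MulAut.conj_apply]
      group
  · rintro ⟨c, ⟨g, hg⟩, rfl⟩
    refine ⟨g, fun k => ?_⟩
    change g * i (b k) * g⁻¹ = i (b (MulAut.conj b⁻¹ c k))
    rw [hg, MulAut.conj_apply, inv_inv, MulAut.mul_apply, MulAut.mul_apply, hb]

theorem hka_conj {K : Type} [Group K] {A B : Subgroup (MulAut K)} {q : MGrp} (h1 : q ∈ HKA K A) (h2 : q ∈ HKA K B) :
    ∃ b : MulAut K, B = A.map (MulAut.conj b).toMonoidHom := by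
  obtain ⟨-, i₁, hi₁, hr₁, hA₁⟩ := h1
  obtain ⟨-, i₂, hi₂, hr₂, hA₂⟩ := h2
  let e₁ : K ≃* i₁.range := MonoidHom.ofInjective hi₁
  let e₂ : K ≃* i₂.range := MonoidHom.ofInjective hi₂
  let b : MulAut K := (e₂.trans (MulEquiv.subgroupCongr (hr₂.trans hr₁.symm))).trans e₁.symm
  have hb : i₂ = i₁.comp b.toMonoidHom := by
    ext k
    have h3 : ∀ x : i₁.range, i₁ (e₁.symm x) = x := by
      intro x
      have h4 : (e₁ (e₁.symm x) : q.grp) = i₁ (e₁.symm x) := MonoidHom.ofInjective_apply hi₁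
      rw [← h4, MulEquiv.apply_symm_apply]
    change i₂ k = i₁ (e₁.symm (MulEquiv.subgroupCongr (hr₂.trans hr₁.symm) (e₂ k)))
    rw [h3]
    rfl
  refine ⟨b⁻¹, ?_⟩
  rw [← hA₂, hb, X3_actI_conj, hA₁]

theorem hka_of_conj {K : Type} [Group K] {A : Subgroup (MulAut K)} {q : MGrp} (h1 : q ∈ HKA K A) (b : MulAut K) :
    q ∈ HKA K (A.map (MulAut.conj b).toMonoidHom) := by
  obtain ⟨hN, i, hi, hr, hA⟩ := h1
  refine ⟨hN, i.comp (b⁻¹ : MulAut K).toMonoidHom, hi.comp (b⁻¹ : MulAut K).injective, ?_, ?_⟩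
  · rw [MonoidHom.range_comp, MonoidHom.range_eq_top.2 (b⁻¹ : MulAut K).surjective, ← MonoidHom.range_eq_map, hr]
  · rw [X3_actI_conj, inv_inv, hA]

theorem inn_le {K : Type} [Group K] {A : Subgroup (MulAut K)} {q : MGrp} (h : q ∈ HKA K A) : (MulAut.conj : K →* MulAut K).range ≤ A := by
  obtain ⟨-, i, -, -, rfl⟩ := h
  rintro _ ⟨k, rfl⟩
  refine ⟨i k, fun l => ?_⟩
  rw [MulAut.conj_apply, map_mul, map_mul, map_inv]

end Pool.SC
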