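import Pool.Agent.Lib.MP_565fc2_lc.SN.Defs

/-!
# SN-X4: every action occurs

`B = Monoid.Coprod (Monoid.Coprod ℤ ℤ) A` (`ℤ` multiplicative): hyperbolic (`freeProdHyp`; finite groups are hyperbolic), not virtually cyclic (it maps onto `ℤ * ℤ`, which is `NonElem`:
`t_nonElem_coprod`, `t_nonElem_of_surj`), `fcr B = 1`: `x ∈ fcr B` has finitely many conjugates under `inl (ℤ * ℤ)`, so `x = inl a`, `a ∈ fcr (ℤ * ℤ)` (`FreeProdFC`), and by
`FreeProdFC` for the first `ℤ` (and, with `Coprod.swap`, for the second one) `a ∈ inl ℤ ∩ inr ℤ = 1`.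
`B` acts on `K` through `B → A ≤ MulAut K` (kill `ℤ * ℤ`).  `G = K ⋊ B`: `NEH` (`neh_iff_of_finKer` for `G → B`), `fcr G = ` range of `inl` (`map_mem_fcr`, `le_fcr`), and
`(k, b)` acts on `K` by `conj k * (action of b)`, so `actI inl = Inn K · A = A`.  Marking: `exists_marking` (SC/TNonempty.lean).
-/

set_option autoImplicit false

namespace Pool.SC

open Subgroup Function

private theorem wordHyp_finite (A : Type) [Group A] [Finite A] : WordHyp A := by
  have h1 : ∀ g : A, wl (Set.univ : Set A) g ≤ 1 := by
    intro g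
    exact Nat.sInf_le ⟨[g], rfl, by simp, by simp⟩
  refine ⟨Set.univ, Set.finite_univ, Subgroup.closure_univ, 2, fun x y z w => ?_⟩
  have h2 := h1 (x⁻¹ * y)
  have h3 := h1 (z⁻¹ * w)
  unfold wd
  omega

private theorem fcr_free : fcr (Monoid.Coprod (Multiplicative ℤ) (Multiplicative ℤ)) = ⊥ :=
  fcr_coprod_self freeProdFC inferInstance

private theorem infinite_free : Infinite (Monoid.Coprod (Multiplicative ℤ) (Multiplicative ℤ)) :=
  Infinite.of_injective _
    (Monoid.Coprod.inl_injective (M := Multiplicative ℤ) (N := Multiplicative ℤ))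

private theorem fcr_B (A : Type) [Group A] :
    fcr (Monoid.Coprod (Monoid.Coprod (Multiplicative ℤ) (Multiplicative ℤ)) A) = ⊥ := by
  rw [eq_bot_iff]
  intro x hx
  have hi : Infinite (Monoid.Coprod (Multiplicative ℤ) (Multiplicative ℤ)) := infinite_free
  have hit : Infinite (⊤ : Subgroup (Monoid.Coprod (Multiplicative ℤ) (Multiplicative ℤ))) :=
    Infinite.of_surjective _ (Equiv.Set.univ _).surjective
  obtain ⟨a, rfl, ha⟩ := freeProdFC _ A ⊤ hit x (FinConj.mono le_top hx)
  have h1 : a ∈ fcr (Monoid.Coprod (Multiplicative ℤ) (Multiplicative ℤ)) := ha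
  rw [fcr_free, mem_bot] at h1
  rw [h1, map_one]
  exact one_mem _

private theorem neh_B (A : Type) [Group A] [Finite A] :
    NEH (Monoid.Coprod (Monoid.Coprod (Multiplicative ℤ) (Multiplicative ℤ)) A) := by
  have hi : Infinite (Monoid.Coprod (Monoid.Coprod (Multiplicative ℤ) (Multiplicative ℤ)) A) := by
    have := infinite_free
    exact Infinite.of_injective _ (Monoid.Coprod.inl_injective
      (M := Monoid.Coprod (Multiplicative ℤ) (Multiplicative ℤ)) (N := A))
  refine ⟨freeProdHyp _ _ (freeProdHyp _ _ t_wordHyp_int t_wordHyp_int) (wordHyp_finite A), ?_⟩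
  refine nonElem_of_fcr_finite hi ?_
  rw [fcr_B]
  infer_instance

private theorem conj_inl {K B : Type} [Group K] [Group B] (φ : B →* MulAut K) (g : K ⋊[φ] B) (k : K) :
    g * SemidirectProduct.inl k * g⁻¹ =
      (SemidirectProduct.inl ((MulAut.conj g.left * φ g.right) k) : K ⋊[φ] B) := by
  apply SemidirectProduct.ext
  · simp [SemidirectProduct.mul_left, SemidirectProduct.inv_left, MulAut.mul_apply, mul_assoc]
  · simp

private theorem main {K B : Type} [Group K] [Finite K] [Group B] (φ : B →* MulAut K) (hB : NEH B)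
    (hb : fcr B = ⊥) (A : Subgroup (MulAut K)) (hφ : φ.range = A)
    (hA : (MulAut.conj : K →* MulAut K).range ≤ A) : (HKA K A).Nonempty := by
  have hfs : Surjective (SemidirectProduct.rightHom : K ⋊[φ] B →* B) :=
    SemidirectProduct.rightHom_surjective
  have hker : (SemidirectProduct.inl : K →* K ⋊[φ] B).range =
      (SemidirectProduct.rightHom : K ⋊[φ] B →* B).ker :=
    SemidirectProduct.range_inl_eq_ker_rightHom
  have hfin : Finite (SemidirectProduct.rightHom : K ⋊[φ] B →* B).ker := by
    rw [← hker]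
    exact Finite.of_surjective _ (SemidirectProduct.inl : K →* K ⋊[φ] B).rangeRestrict_surjective
  have hG : NEH (K ⋊[φ] B) := (neh_iff_of_finKer b4 _ hfs hfin).2 hB
  have hrad : (SemidirectProduct.inl : K →* K ⋊[φ] B).range = fcr (K ⋊[φ] B) := by
    apply le_antisymm
    · rw [hker]
      exact le_fcr _
    · intro x hx
      have h1 := map_mem_fcr (SemidirectProduct.rightHom : K ⋊[φ] B →* B) hfs hx
      rw [hb, mem_bot] at h1
      rw [hker]
      exact h1
  have hinj : Injective (SemidirectProduct.inl : K →* K ⋊[φ] B) := SemidirectProduct.inl_injective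
  obtain ⟨p, hp, ⟨e⟩⟩ := exists_marking hG
  refine ⟨p, hp, e.symm.toMonoidHom.comp SemidirectProduct.inl, ?_, ?_, ?_⟩
  · exact e.symm.injective.comp hinj
  · rw [MonoidHom.range_comp, hrad]
    apply le_antisymm
    · rintro _ ⟨x, hx, rfl⟩
      exact map_mem_fcr e.symm.toMonoidHom e.symm.surjective hx
    · intro x hx
      exact ⟨e x, map_mem_fcr e.toMonoidHom e.surjective hx, e.symm_apply_apply x⟩
  · ext a
    rw [mem_actI]
    constructor
    · rintro ⟨g, hg⟩
      have h1 : a = MulAut.conj (e g).left * φ (e g).right := by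
        ext k
        apply hinj
        have h2 := congrArg e (hg k)
        rw [← conj_inl]
        have h3 : e (g * (e.symm.toMonoidHom.comp SemidirectProduct.inl) k * g⁻¹) =
            e g * SemidirectProduct.inl k * (e g)⁻¹ := by
          rw [map_mul, map_mul, map_inv]
          congr 2
          exact e.apply_symm_apply _
        have h4 : e ((e.symm.toMonoidHom.comp SemidirectProduct.inl) (a k)) =
            SemidirectProduct.inl (a k) := e.apply_symm_apply _
        rw [h3, h4] at h2
        exact h2.symm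
      rw [h1]
      exact mul_mem (hA ⟨_, rfl⟩) (hφ ▸ ⟨_, rfl⟩)
    · intro ha
      rw [← hφ] at ha
      obtain ⟨b, hb'⟩ := ha
      refine ⟨e.symm (SemidirectProduct.inr b), fun k => ?_⟩
      have h5 : (SemidirectProduct.inr b : K ⋊[φ] B) * SemidirectProduct.inl k *
          (SemidirectProduct.inr b)⁻¹ = SemidirectProduct.inl (a k) := by
        rw [conj_inl]
        simp [hb']
      have h6 := congrArg e.symm h5
      rw [map_mul, map_mul, map_inv] at h6
      exact h6

theorem exists_HKA (K : Type) [Group K] [Finite K] (A : Subgroup (MulAut K)) (hA : (MulAut.conj : K →* MulAut K).range ≤ A) :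
    (HKA K A).Nonempty := by
  have hfA : Finite (MulAut K) := by
    have : Finite (K → K) := inferInstance
    exact Finite.of_injective (fun f : MulAut K => (f : K → K)) (fun a b h => by
      ext x; exact congrArg (fun t : K → K => t x) h)
  have hfA' : Finite A := inferInstance
  refine main (A.subtype.comp
    (Monoid.Coprod.snd : Monoid.Coprod (Monoid.Coprod (Multiplicative ℤ) (Multiplicative ℤ)) A →* A))
    (neh_B A) (fcr_B A) A ?_ hA
  apply le_antisymm
  · rintro _ ⟨b, rfl⟩
    exact (Monoid.Coprod.snd b).2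
  · intro a ha
    refine ⟨Monoid.Coprod.inr (⟨a, ha⟩ : A), ?_⟩
    rw [MonoidHom.comp_apply, Monoid.Coprod.snd_apply_inr]
    rfl

end Pool.SC
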