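import Pool.Agent.Lib.MP_565fc2_lc.SN.W2
import Pool.Agent.Lib.MP_565fc2_lc.SN.U4
import Pool.Agent.Lib.MP_565fc2_lc.SN.X1
import Pool.Agent.Lib.MP_565fc2_lc.SN.X2
import Pool.Agent.Lib.MP_565fc2_lc.SN.X3
import Pool.Agent.Lib.MP_565fc2_lc.SN.X4

/-!
# SN-X5: the generic number of elementary classes for a fixed radical

`H = HK K`.  For `A : InnLe K`: `VK K A` is open (`isOpen_VK`), `Trans H (VK K A)` (`trans_HKA` with `hk_inter_VK`, `hka_HK`), so `theory_of_trans` gives a theory `T A` and a residual set `R A`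
(`x ∈ VK K A → Th x = T A`).  `VK K A` meets `H` (`exists_HKA`), so it contains a point of every residual set (Baire, `baire_closure`).
`T A = T B` iff `A`, `B` are conjugate: if conjugate then a point of `HKA K A` is in `HKA K B` (`hka_of_conj`), so `VK K A ∩ VK K B` meets `H` and contains a point of `R A ∩ R B`.
If `T A = T B`: take `x ∈ R B ∩ VK K B`; `x ∈ VK K B`, `Th x = T B = T A`; the sentence of `A` (`exists_sentenceK`) is in `T A` (because it is true at a point of `R A ∩ VK K A`), so `x ∈ VK K A`, so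
the open set `VK K A ∩ VK K B` meets `H` in some `q`, `q ∈ HKA K A`, `q ∈ HKA K B` (`hk_inter_VK`), so `A`, `B` are conjugate (`hka_conj`).
`S = {x | ∃ A, x ∈ VK K A ∧ Th x = T A}`: residual, because `⋃ VK K A` is open and contains `H` (`hk_HKA`, `inn_le`, `hka_VK`), so dense, and `x ∈ ⋂ R A` (finitely many `A`).
`Th '' S = range T`, of cardinality `nOut K`; and `range T ⊆ Th '' S'` for every residual `S'`.
-/

set_option autoImplicit false

namespace Pool.SC

open Subgroup Function

private theorem X5_meet {H : Set MGrp} {S : Set (closure H)} (hS : S ∈ residual (closure H)) {U : Set MGrp} (hU : IsOpen U)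
    (hne : (U ∩ H).Nonempty) : ∃ x : closure H, x ∈ S ∧ (x : MGrp) ∈ U := by
  have hB : BaireSpace (closure H) := baire_closure H
  obtain ⟨q, hqU, hqH⟩ := hne
  have hd : Dense S := dense_of_mem_residual hS
  have hUo : IsOpen ((fun x : closure H => (x : MGrp)) ⁻¹' U) := hU.preimage continuous_subtype_val
  obtain ⟨x, hxU, hxS⟩ := hd.inter_open_nonempty _ hUo ⟨⟨q, subset_closure hqH⟩, hqU⟩
  exact ⟨x, hxS, hxU⟩

theorem fixed_radical (K : Type) [Group K] [Finite K] :
    (∃ S : Set (closure (HK K)), S ∈ residual (closure (HK K)) ∧ ((fun p : closure (HK K) => Th p.1) '' S).encard = nOut K) ∧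
      ∀ S : Set (closure (HK K)), S ∈ residual (closure (HK K)) → (nOut K : ℕ∞) ≤ ((fun p : closure (HK K) => Th p.1) '' S).encard := by
  classical
  have hinv : IsoInv (HK K) := isoInv_HP (fun K₁ L₁ _ _ he hf => by
    obtain ⟨e⟩ := he
    obtain ⟨f⟩ := hf
    exact ⟨e.symm.trans f⟩)
  have hT : ∀ A : InnLe K, Trans (HK K) (VK K A.1) := fun A =>
    trans_HKA amalg freeProdHyp freeProdLox freeProdFC (scGenP dehnHyp b1 b4) b2 b3 b4 A.1
      (fun q hV hH => hk_inter_VK b1 hH hV) (fun q hq => hka_HK b1 hq)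
  choose T hR using fun A : InnLe K => theory_of_trans hinv (isOpen_VK K A.1) (hT A)
  have hfin : Finite (InnLe K) := by
    unfold InnLe
    infer_instance
  -- the open sets meet the class
  have hne : ∀ A : InnLe K, (VK K A.1 ∩ HK K).Nonempty := by
    intro A
    obtain ⟨q, hq⟩ := exists_HKA K A.1 A.2
    exact ⟨q, hka_VK hq, hka_HK b1 hq⟩
  -- every theory occurs on every residual set
  have hocc : ∀ (A : InnLe K) (S : Set (closure (HK K))), S ∈ residual (closure (HK K)) →
      ∃ x ∈ S, (x : MGrp) ∈ VK K A.1 ∧ Th (x : MGrp) = T A := by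
    intro A S hS
    obtain ⟨x, hx, hxV⟩ := X5_meet (Filter.inter_mem hS (hR A)) (isOpen_VK K A.1) (hne A)
    exact ⟨x, hx.1, hxV, hx.2 hxV⟩
  have hiff : ∀ A B : InnLe K, T A = T B ↔ (outSetoid K).r A B := by
    intro A B
    constructor
    · intro hAB
      obtain ⟨φ, hφ⟩ := exists_sentenceK K A.1
      obtain ⟨y, -, hyV, hyT⟩ := hocc A Set.univ Filter.univ_mem
      obtain ⟨x, -, hxV, hxT⟩ := hocc B Set.univ Filter.univ_mem
      have h1 : φ ∈ Th (y : MGrp) := (hφ (y : MGrp)).2 hyV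
      have h2 : φ ∈ Th (x : MGrp) := by
        rw [hxT, ← hAB, ← hyT]
        exact h1
      have h3 : (x : MGrp) ∈ VK K A.1 := (hφ (x : MGrp)).1 h2
      obtain ⟨q, ⟨hqA, hqB⟩, hqH⟩ := meets ((isOpen_VK K A.1).inter (isOpen_VK K B.1)) (x := x) ⟨h3, hxV⟩
      exact hka_conj (hk_inter_VK b1 hqH hqA) (hk_inter_VK b1 hqH hqB)
    · rintro ⟨b, hb⟩
      obtain ⟨q, hq⟩ := exists_HKA K A.1 A.2
      have hqB : q ∈ HKA K B.1 := by
        rw [hb]
        exact hka_of_conj hq b
      obtain ⟨x, ⟨hx1, hx2⟩, hxV⟩ := X5_meet (Filter.inter_mem (hR A) (hR B))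
        ((isOpen_VK K A.1).inter (isOpen_VK K B.1)) ⟨q, ⟨hka_VK hq, hka_VK hqB⟩, hka_HK b1 hq⟩
      rw [← hx1 hxV.1, ← hx2 hxV.2]
  -- the number of theories
  have hcard : (Set.range T).encard = nOut K := by
    let F : Quotient (outSetoid K) → LG.Theory := Quotient.lift T fun A B h => (hiff A B).2 h
    have hF : Injective F := by
      intro a b
      refine Quotient.inductionOn₂ a b fun A B h => ?_
      exact Quotient.sound ((hiff A B).1 h)
    have hr : Set.range T = Set.range F := by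
      ext t
      constructor
      · rintro ⟨A, rfl⟩
        exact ⟨Quotient.mk _ A, rfl⟩
      · rintro ⟨a, rfl⟩
        refine Quotient.inductionOn a fun A => ?_
        exact ⟨A, rfl⟩
    have : Finite (Quotient (outSetoid K)) := Quotient.finite _
    rw [hr, ← Set.image_univ, hF.encard_image, Set.encard_univ, ENat.card_eq_coe_natCard]
    rfl
  constructor
  · refine ⟨{x | ∃ A : InnLe K, (x : MGrp) ∈ VK K A.1 ∧ Th (x : MGrp) = T A}, ?_, ?_⟩
    · have hopen : IsOpen ((fun x : closure (HK K) => (x : MGrp)) ⁻¹' (⋃ A : InnLe K, VK K A.1)) :=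
        (isOpen_iUnion fun A : InnLe K => isOpen_VK K A.1).preimage continuous_subtype_val
      have hdense : Dense ((fun x : closure (HK K) => (x : MGrp)) ⁻¹' (⋃ A : InnLe K, VK K A.1)) := by
        rw [dense_iff_inter_open]
        intro O hO hOne
        obtain ⟨U, hU, hUO⟩ := isOpen_induced_iff.1 hO
        obtain ⟨x, hx⟩ := hOne
        have hxU : (x : MGrp) ∈ U := by
          rw [← hUO] at hx
          exact hx
        obtain ⟨q, hqU, hqH⟩ := meets hU hxU
        obtain ⟨A, hA⟩ := hk_HKA b1 hqH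
        refine ⟨⟨q, subset_closure hqH⟩, ?_, ?_⟩
        · rw [← hUO]
          exact hqU
        · exact Set.mem_iUnion.2 ⟨⟨A, inn_le hA⟩, hka_VK hA⟩
      have h1 := residual_of_dense_open hopen hdense
      have h2 : (⋂ A : InnLe K, {x : closure (HK K) | (x : MGrp) ∈ VK K A.1 → Th (x : MGrp) = T A}) ∈
          residual (closure (HK K)) := countable_iInter_mem.2 hR
      filter_upwards [h1, h2] with x hx1 hx2
      obtain ⟨A, hA⟩ := Set.mem_iUnion.1 hx1
      rw [Set.mem_iInter] at hx2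
      exact ⟨A, hA, hx2 A hA⟩
    · rw [← hcard]
      congr 1
      ext t
      constructor
      · rintro ⟨x, ⟨A, _, hA⟩, rfl⟩
        exact ⟨A, hA.symm⟩
      · rintro ⟨A, rfl⟩
        obtain ⟨x, -, hxV, hxT⟩ := hocc A Set.univ Filter.univ_mem
        exact ⟨x, ⟨A, hxV, hxT⟩, hxT⟩
  · intro S hS
    rw [← hcard]
    refine Set.encard_le_encard ?_
    rintro _ ⟨A, rfl⟩
    obtain ⟨x, hxS, -, hxT⟩ := hocc A S hS
    exact ⟨x, hxS, hxT⟩

end Pool.SC
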