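import Pool.Agent.Lib.MP_565fc2_lc.SN.W2
import Pool.Agent.Lib.MP_565fc2_lc.SN.U4
import Pool.Agent.Lib.MP_565fc2_lc.SN.X1

/-!
# SN-X6: radicals of bounded order: finitely many classes

`P L = (Nat.card L ≤ m)`, `H = HP P`.  No ascending chain (the orders would be unbounded).  Index set `J`: all `(n, s, A)`, `n ≤ m`, `s` a group structure on `Fin n`, `A` a subgroup of
`MulAut (Fin n)` (a finite type).  For `j ∈ J` let `W j` be the union of all open `V` with `V ∩ H ⊆ HKA (Fin n) A`.  `Trans H (W j)` (`trans_HKA`), so `theory_of_trans` gives `T j`, `R j`.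
By `noeth_local` the union of the `W j` is dense (`HKA K A` for `K ≃* Fin n` is `HKA (Fin n) A'` with the transported `A'`).  `S = (⋃ W j) ∩ ⋂ R j`: `Th '' S ⊆ range T`.
-/

set_option autoImplicit false

namespace Pool.SC

open Subgroup Function

/-- transport of the radical along an isomorphism -/
private theorem X6_equiv {K L : Type} [Group K] [Group L] (e : K ≃* L) {A : Subgroup (MulAut K)} {q : MGrp}
    (h : q ∈ HKA K A) : q ∈ HKA L (A.map (MulAut.congr e).toMonoidHom) := by
  obtain ⟨hG, i, hi, hr, hA⟩ := h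
  refine ⟨hG, i.comp e.symm.toMonoidHom, hi.comp e.symm.injective, ?_, ?_⟩
  · rw [← hr]
    ext x
    constructor
    · rintro ⟨l, rfl⟩
      exact ⟨e.symm l, rfl⟩
    · rintro ⟨k, rfl⟩
      exact ⟨e k, by simp⟩
  · ext b
    rw [mem_actI, ← hA, Subgroup.mem_map]
    constructor
    · rintro ⟨g, hg⟩
      refine ⟨(MulAut.congr e).symm b, ?_, ?_⟩
      · rw [mem_actI]
        refine ⟨g, fun k => ?_⟩
        have h1 := hg (e k)
        simpa using h1
      · ext l
        simp
    · rintro ⟨a, ha, rfl⟩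
      rw [mem_actI] at ha
      obtain ⟨g, hg⟩ := ha
      refine ⟨g, fun l => ?_⟩
      have h1 := hg (e.symm l)
      simpa using h1

private theorem X6_meet {H : Set MGrp} {S : Set (closure H)} (hS : S ∈ residual (closure H)) {U : Set MGrp} (hU : IsOpen U)
    (hne : (U ∩ H).Nonempty) : ∃ x : closure H, x ∈ S ∧ (x : MGrp) ∈ U := by
  have hB : BaireSpace (closure H) := baire_closure H
  obtain ⟨q, hqU, hqH⟩ := hne
  have hd : Dense S := dense_of_mem_residual hS
  have hUo : IsOpen ((fun x : closure H => (x : MGrp)) ⁻¹' U) := hU.preimage continuous_subtype_val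
  obtain ⟨x, hxU, hxS⟩ := hd.inter_open_nonempty _ hUo ⟨⟨q, subset_closure hqH⟩, hqU⟩
  exact ⟨x, hxS, hxU⟩

/-- the group structures on a finite type form a finite type -/
private theorem X6_fin (n : ℕ) : Finite (Group (Fin n)) := by
  refine Finite.of_injective (fun s : Group (Fin n) => (s.mul : Fin n → Fin n → Fin n)) ?_
  intro s t h
  exact Group.ext h

private theorem X6_chain (m : ℕ) : ¬ AscChain fun L _ => Nat.card L ≤ m := by
  rintro ⟨K, _, f, h⟩
  have key : ∀ n, n ≤ Nat.card (K n) := by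
    intro n
    induction n with
    | zero => exact Nat.zero_le _
    | succ n ih =>
      obtain ⟨hf, -, hi, -, hns⟩ := h n
      obtain ⟨hf', -⟩ := h (n + 1)
      have h1 : Nat.card (K n) < Nat.card (K (n + 1)) := by
        refine lt_of_le_of_ne (Nat.card_le_card_of_injective _ hi) fun heq => hns ?_
        exact ((Nat.bijective_iff_injective_and_card (f n)).2 ⟨hi, heq⟩).2
      omega
  have h1 := key (m + 1)
  have h2 := (h (m + 1)).2.1
  omega

/-- the points of `H` in the open set `V` have the radical `K` and the action `A` -/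
private def X6_W (H : Set MGrp) (K : Type) [Group K] (A : Subgroup (MulAut K)) : Set MGrp :=
  ⋃₀ {V : Set MGrp | IsOpen V ∧ ∀ q ∈ V, q ∈ H → q ∈ HKA K A}

private theorem X6_open (H : Set MGrp) (K : Type) [Group K] (A : Subgroup (MulAut K)) : IsOpen (X6_W H K A) :=
  isOpen_sUnion fun _ hV => hV.1

private theorem X6_mem (H : Set MGrp) (K : Type) [Group K] (A : Subgroup (MulAut K)) :
    ∀ q ∈ X6_W H K A, q ∈ H → q ∈ HKA K A := by
  rintro q ⟨V, hV, hqV⟩ hq
  exact hV.2 q hqV hq

private theorem X6_theory (m : ℕ) {K : Type} [Group K] [Finite K] (hK : Nat.card K ≤ m) (A : Subgroup (MulAut K)) :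
    ∃ T : FirstOrder.Language.Theory LG, {x : closure (HP fun L _ => Nat.card L ≤ m) |
      (x : MGrp) ∈ X6_W (HP fun L _ => Nat.card L ≤ m) K A → Th (x : MGrp) = T} ∈
        residual (closure (HP fun L _ => Nat.card L ≤ m)) := by
  have hiso : ∀ (K L : Type) [Group K] [Group L], Nonempty (K ≃* L) → Nat.card K ≤ m → Nat.card L ≤ m := by
    rintro K L _ _ ⟨e⟩ h
    rwa [← Nat.card_congr e.toEquiv]
  refine theory_of_trans (isoInv_HP hiso) (X6_open _ K A) ?_
  refine trans_HKA amalg freeProdHyp freeProdLox freeProdFC (scGenP dehnHyp b1 b4) b2 b3 b4 A (X6_mem _ K A) ?_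
  rintro q ⟨hG, i, hi, hr, -⟩
  refine ⟨hG, fcr q.grp, (isRad_iff b1 hG _).2 rfl, ?_⟩
  exact hiso K (fcr q.grp) ⟨(MonoidHom.ofInjective hi).trans (MulEquiv.subgroupCongr hr)⟩ hK

/-- the index set -/
private def X6_J (m : ℕ) : Type := Σ n : Fin (m + 1), Σ s : Group (Fin n), @Subgroup (@MulAut (Fin n) (s.toMul)) (@MulAut.instGroup (Fin n) s.toMul)

theorem bounded_radical (m : ℕ) :
    ∃ S : Set (closure (HP fun L _ => Nat.card L ≤ m)), S ∈ residual (closure (HP fun L _ => Nat.card L ≤ m)) ∧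
      ((fun p : closure (HP fun L _ => Nat.card L ≤ m) => Th p.1) '' S).Finite := by
  classical
  set H : Set MGrp := HP fun L _ => Nat.card L ≤ m with hH
  have hiso : ∀ (K L : Type) [Group K] [Group L], Nonempty (K ≃* L) → Nat.card K ≤ m → Nat.card L ≤ m := by
    rintro K L _ _ ⟨e⟩ h
    rwa [← Nat.card_congr e.toEquiv]
  -- the open sets
  let W : X6_J m → Set MGrp := fun j => @X6_W H (Fin j.1) j.2.1 j.2.2
  have hWo : ∀ j, IsOpen (W j) := fun j => @X6_open H (Fin j.1) j.2.1 j.2.2
  have hTh : ∀ j : X6_J m, ∃ T : FirstOrder.Language.Theory LG, {x : closure H | (x : MGrp) ∈ W j → Th (x : MGrp) = T} ∈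
      residual (closure H) := fun j => @X6_theory m (Fin j.1) j.2.1 inferInstance
        (by rw [Nat.card_eq_fintype_card, Fintype.card_fin]; exact Nat.lt_succ_iff.1 j.1.2) j.2.2
  choose T hR using hTh
  have hfin : Finite (X6_J m) := by
    have h1 : ∀ n : Fin (m + 1), Finite (Group (Fin n)) := fun n => X6_fin n
    have h2 : ∀ (n : Fin (m + 1)) (s : Group (Fin n)),
        Finite (@Subgroup (@MulAut (Fin n) (s.toMul)) (@MulAut.instGroup (Fin n) s.toMul)) := by
      intro n s
      infer_instance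
    unfold X6_J
    infer_instance
  refine ⟨{x | ∃ j, (x : MGrp) ∈ W j ∧ Th (x : MGrp) = T j}, ?_, ?_⟩
  · have hopen : IsOpen ((fun x : closure H => (x : MGrp)) ⁻¹' (⋃ j, W j)) :=
      (isOpen_iUnion hWo).preimage continuous_subtype_val
    have hdense : Dense ((fun x : closure H => (x : MGrp)) ⁻¹' (⋃ j, W j)) := by
      rw [dense_iff_inter_open]
      intro O hO hOne
      obtain ⟨U, hU, hUO⟩ := isOpen_induced_iff.1 hO
      obtain ⟨x, hx⟩ := hOne
      have hxU : (x : MGrp) ∈ U := by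
        rw [← hUO] at hx
        exact hx
      obtain ⟨V, hVU, hVo, ⟨q, hqV, hqH⟩, K, _, _, A, hPK, hV⟩ :=
        noeth_local fpk b1 hiso (X6_chain m) U hU (meets hU hxU)
      have hVU' := hVU hqV
      refine ⟨⟨q, subset_closure hqH⟩, ?_, ?_⟩
      · rw [← hUO]
        exact hVU'
      · let e : K ≃ Fin (Nat.card K) := Finite.equivFin K
        let s : Group (Fin (Nat.card K)) := e.symm.group
        let e' : @MulEquiv K (Fin (Nat.card K)) _ s.toMul := @MulEquiv.symm (Fin (Nat.card K)) K s.toMul _ e.symm.mulEquiv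
        refine Set.mem_iUnion.2 ⟨⟨⟨Nat.card K, Nat.lt_succ_iff.2 hPK⟩, s,
          @Subgroup.map (MulAut K) _ (@MulAut (Fin (Nat.card K)) s.toMul) _ (MulEquiv.toMonoidHom (@MulAut.congr K _ (Fin (Nat.card K)) s e')) A⟩, ?_⟩
        refine ⟨V, ⟨hVo, fun q' hq' hq'H => ?_⟩, hqV⟩
        exact @X6_equiv K (Fin (Nat.card K)) _ s e' A q' (hV q' hq' hq'H)
    have h1 := residual_of_dense_open hopen hdense
    have h2 : (⋂ j, {x : closure H | (x : MGrp) ∈ W j → Th (x : MGrp) = T j}) ∈
        residual (closure H) := countable_iInter_mem.2 hR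
    filter_upwards [h1, h2] with x hx1 hx2
    obtain ⟨j, hj⟩ := Set.mem_iUnion.1 hx1
    rw [Set.mem_iInter] at hx2
    exact ⟨j, hj, hx2 j hj⟩
  · refine (Set.finite_range T).subset ?_
    rintro _ ⟨x, ⟨j, -, hj⟩, rfl⟩
    exact ⟨j, hj.symm⟩

end Pool.SC
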